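import Pool.Agent.H25.HX.ImpB

/-! # Improved Sobolev inequality -/

set_option autoImplicit false

open MeasureTheory Filter Topology
open scoped RealInnerProductSpace

namespace Pool.Agent.H25.HX

variable {N : ℕ} {Ω : Set (E N)}

/-- one level -/
theorem imp_level (hN : 1 ≤ N) {p : ℝ} (hp : 2 < p) : ∃ C : ℝ, 0 < C ∧
    ∀ (Ω : Set (E N)) (z : E N → ℝ) (Z : E N → E N) (B : ℝ), H10 Ω z Z → Measurable z → 0 < B →
      (∀ (x : E N) (r : ℝ), 0 < r →
        ∫ y in Metric.ball x r, |z y| ≤ B * r ^ ((N : ℝ) - 2 / (p - 2))) →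
      ∀ l : ℝ, 0 < l →
        ∫⁻ x in {x | 2 * l ≤ |z x| ∧ |z x| < 4 * l}, ENNReal.ofReal (|z x| ^ p) ≤
          ENNReal.ofReal (C * B ^ (p - 2)) *
            ∫⁻ x in {x | l ≤ |z x| ∧ |z x| < 2 * l}, ENNReal.ofReal (‖Z x‖ ^ 2) := by
  obtain ⟨K, hK, f1, f2, f3, f4, f5, f6, f7, f8, f9⟩ := Ph_facts
  set ω : ℝ := (volume (Metric.ball (0 : E N) 1)).toReal with hω
  have hω1 : volume (Metric.ball (0 : E N) 1) ≠ ⊤ := measure_ball_lt_top.ne
  have hω0 : 0 < ω :=
    ENNReal.toReal_pos (Metric.measure_ball_pos volume _ one_pos).ne' hω1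
  refine ⟨2 * (4 : ℝ) ^ p * K ^ 2 * (4 / ω) ^ (p - 2), by positivity, ?_⟩
  intro Ω z Z B hz hzm hB hav l hl
  have hp2 : 0 < p - 2 := by linarith
  set γ : ℝ := 2 / (p - 2) with hγ
  have hγ0 : 0 < γ := div_pos two_pos hp2
  -- the radius
  set r : ℝ := (4 * B / (l * ω)) ^ (1 / γ) with hr
  have hb0 : 0 < 4 * B / (l * ω) := by positivity
  have hr0 : 0 < r := Real.rpow_pos_of_pos hb0 _
  have hrγ : r ^ γ = 4 * B / (l * ω) := by
    rw [hr, ← Real.rpow_mul hb0.le]
    rw [one_div, inv_mul_cancel₀ hγ0.ne', Real.rpow_one]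
  have hr2 : r ^ 2 = (4 * B / (l * ω)) ^ (p - 2) := by
    rw [hr, ← Real.rpow_natCast, ← Real.rpow_mul hb0.le]
    congr 1
    rw [hγ]
    field_simp
    norm_num
  -- the truncated function
  set F : ℝ → ℝ := fun s => l * Ph (s / l) with hF
  have hF1 : ContDiff ℝ 1 F := contDiff_const.mul (f1.comp (contDiff_id.div_const l))
  have hF0 : F 0 = 0 := by simp [hF, f2]
  have hFd : ∀ s, deriv F s = deriv Ph (s / l) := by
    intro s
    have h1 : HasDerivAt (fun s : ℝ => s / l) (1 / l) s := (hasDerivAt_id s).div_const l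
    have h2 : HasDerivAt Ph (deriv Ph (s / l)) (s / l) :=
      ((f1.differentiable (by norm_num)) _).hasDerivAt
    have h3 := (h2.comp s h1).const_mul l
    have h4 : l * (deriv Ph (s / l) * (1 / l)) = deriv Ph (s / l) := by
      field_simp
    rw [h4] at h3
    exact h3.deriv
  have hFb : ∀ s, |deriv F s| ≤ K := fun s => by
    rw [hFd]
    exact f7 _
  have hw := hz.comp hF1 hF0 hFb
  set w : E N → ℝ := fun x => F (z x) with hwd
  have hwm : Measurable w := hF1.continuous.measurable.comp hzm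
  have hwle : ∀ x, w x ≤ |z x| := by
    intro x
    simp only [hwd, hF]
    rcases le_total |z x| l with h | h
    · have : |z x / l| ≤ 1 := by
        rw [abs_div, abs_of_pos hl, div_le_one hl]
        exact h
      rw [f5 _ this, mul_zero]
      exact abs_nonneg _
    · have := f4 (z x / l)
      nlinarith
  have hball : (volume (Metric.ball (0 : E N) r)).toReal = r ^ (N : ℝ) * ω := by
    rw [Measure.addHaar_ball_of_pos _ _ hr0]
    rw [ENNReal.toReal_mul, ENNReal.toReal_ofReal (by positivity), finrank_euclideanSpace,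
      Fintype.card_fin, Real.rpow_natCast]
  have hav' : ∀ x, ∫ y in Metric.ball (0 : E N) r, w (x + y) ≤
      l / 4 * (volume (Metric.ball (0 : E N) r)).toReal := by
    intro x
    have : IsFiniteMeasure (volume.restrict (Metric.ball (0 : E N) r)) := ⟨by
      rw [Measure.restrict_apply_univ]
      exact measure_ball_lt_top⟩
    have hsh : ∀ {v : E N → ℝ}, MemLp v 2 volume →
        Integrable (fun y => v (x + y)) (volume.restrict (Metric.ball (0 : E N) r)) := by
      intro v hv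
      have h1 : MemLp (fun y => v (x + y)) 2 volume :=
        hv.comp_measurePreserving (measurePreserving_add_left volume x)
      exact (h1.restrict _).integrable (by norm_num)
    have h1 : ∫ y in Metric.ball (0 : E N) r, w (x + y) ≤
        ∫ y in Metric.ball (0 : E N) r, |z (x + y)| := by
      apply integral_mono (hsh hw.1) (hsh (v := fun y => |z y|) hz.1.abs)
      intro y
      exact hwle (x + y)
    have h2 : ∫ y in Metric.ball (0 : E N) r, |z (x + y)| = ∫ y in Metric.ball x r, |z y| := by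
      rw [← integral_indicator measurableSet_ball, ← integral_indicator measurableSet_ball]
      rw [← integral_add_left_eq_self
        (fun y => (Metric.ball x r).indicator (fun y => |z y|) y) x]
      refine integral_congr_ae (ae_of_all _ fun y => ?_)
      simp only [Set.indicator, Metric.mem_ball, dist_zero_right, dist_self_add_left]
    have h3 := hav x r hr0
    rw [h2] at h1
    refine h1.trans (h3.trans (le_of_eq ?_))
    rw [hball, Real.rpow_sub hr0, hrγ]
    field_simp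
  have h1 := level_est hw hwm hl hr0 hav'
  -- the gradient
  set A : Set (E N) := {x | l ≤ |z x| ∧ |z x| < 2 * l} with hA
  have hAm : MeasurableSet A :=
    (measurableSet_le measurable_const hzm.abs).inter (measurableSet_lt hzm.abs measurable_const)
  have iZ : Integrable (fun x => ‖Z x‖ ^ 2) volume := sq_norm_integrable hz.2.1
  have h2 : ∫ x, ‖deriv F (z x) • Z x‖ ^ 2 ≤ K ^ 2 * ∫ x in A, ‖Z x‖ ^ 2 := by
    rw [← integral_indicator hAm, ← integral_const_mul]
    apply integral_mono (sq_norm_integrable hw.2.1) ((iZ.indicator hAm).const_mul _)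
    intro x
    simp only [Set.indicator]
    rw [norm_smul, mul_pow]
    split_ifs with hx
    · refine mul_le_mul_of_nonneg_right ?_ (by positivity)
      exact pow_le_pow_left₀ (norm_nonneg _) (hFb _) 2
    · have h3 : deriv F (z x) = 0 := by
        rw [hFd]
        rcases lt_or_ge |z x| l with h | h
        · apply f8
          rw [abs_div, abs_of_pos hl, div_lt_one hl]
          exact h
        · apply f9
          rw [abs_div, abs_of_pos hl, le_div_iff₀ hl]
          by_contra h4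
          exact hx ⟨h, not_le.1 h4⟩
      rw [h3]
      simp
  have h3 : ENNReal.ofReal (∫ x in A, ‖Z x‖ ^ 2) = ∫⁻ x in A, ENNReal.ofReal (‖Z x‖ ^ 2) :=
    ofReal_integral_eq_lintegral_ofReal iZ.integrableOn (ae_of_all _ fun x => by positivity)
  have h4 : volume {x | 2 * l ≤ |z x|} * ENNReal.ofReal (l ^ 2 / 2) ≤
      ENNReal.ofReal (r ^ 2 * K ^ 2) * ∫⁻ x in A, ENNReal.ofReal (‖Z x‖ ^ 2) := by
    have hsub : {x | 2 * l ≤ |z x|} ⊆ {x | l ≤ w x} := by
      intro x hx
      simp only [Set.mem_ofPred_eq] at hx ⊢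
      have : 2 ≤ |z x / l| := by
        rw [abs_div, abs_of_pos hl, le_div_iff₀ hl]
        exact hx
      simp only [hwd, hF]
      rw [f6 _ this]
      linarith
    calc volume {x | 2 * l ≤ |z x|} * ENNReal.ofReal (l ^ 2 / 2)
        ≤ volume {x | l ≤ w x} * ENNReal.ofReal (l ^ 2 / 2) := by gcongr
      _ ≤ ENNReal.ofReal (r ^ 2 * ∫ x, ‖deriv F (z x) • Z x‖ ^ 2) := h1
      _ ≤ ENNReal.ofReal (r ^ 2 * K ^ 2 * ∫ x in A, ‖Z x‖ ^ 2) := by
          apply ENNReal.ofReal_le_ofReal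
          rw [mul_assoc]
          exact mul_le_mul_of_nonneg_left h2 (sq_nonneg _)
      _ = ENNReal.ofReal (r ^ 2 * K ^ 2) * ∫⁻ x in A, ENNReal.ofReal (‖Z x‖ ^ 2) := by
          rw [ENNReal.ofReal_mul (by positivity), h3]
  -- conclusion
  have h5 : ∫⁻ x in {x | 2 * l ≤ |z x| ∧ |z x| < 4 * l}, ENNReal.ofReal (|z x| ^ p) ≤
      ENNReal.ofReal ((4 * l) ^ p) * volume {x | 2 * l ≤ |z x|} := by
    have hm4 : MeasurableSet {x | 2 * l ≤ |z x| ∧ |z x| < 4 * l} :=
      (measurableSet_le measurable_const hzm.abs).inter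
        (measurableSet_lt hzm.abs measurable_const)
    calc ∫⁻ x in {x | 2 * l ≤ |z x| ∧ |z x| < 4 * l}, ENNReal.ofReal (|z x| ^ p)
        ≤ ∫⁻ _x in {x | 2 * l ≤ |z x| ∧ |z x| < 4 * l}, ENNReal.ofReal ((4 * l) ^ p) := by
          apply setLIntegral_mono' hm4
          intro x hx
          apply ENNReal.ofReal_le_ofReal
          exact Real.rpow_le_rpow (abs_nonneg _) hx.2.le (by linarith)
      _ = ENNReal.ofReal ((4 * l) ^ p) * volume {x | 2 * l ≤ |z x| ∧ |z x| < 4 * l} :=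
          setLIntegral_const _ _
      _ ≤ _ := by
          gcongr
          exact fun hx => hx.1
  refine h5.trans ?_
  have e1 : ENNReal.ofReal ((4 * l) ^ p) =
      ENNReal.ofReal (2 * (4 : ℝ) ^ p * l ^ (p - 2)) * ENNReal.ofReal (l ^ 2 / 2) := by
    rw [← ENNReal.ofReal_mul (by positivity)]
    congr 1
    rw [Real.mul_rpow (by norm_num) hl.le]
    have : l ^ p = l ^ (p - 2) * l ^ 2 := by
      rw [← Real.rpow_natCast l 2, ← Real.rpow_add hl]
      congr 1
      push_cast
      ring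
    rw [this]
    ring
  rw [e1, mul_assoc, mul_comm (ENNReal.ofReal (l ^ 2 / 2))]
  refine (mul_le_mul_right h4 _).trans ?_
  rw [← mul_assoc, ← ENNReal.ofReal_mul (by positivity)]
  refine mul_le_mul_left (ENNReal.ofReal_le_ofReal (le_of_eq ?_)) _
  rw [hr2]
  have e2 : (4 * B / (l * ω)) ^ (p - 2) = (4 / ω) ^ (p - 2) * B ^ (p - 2) / l ^ (p - 2) := by
    rw [← Real.mul_rpow (by positivity) hB.le, ← Real.div_rpow (by positivity) hl.le]
    congr 1
    field_simp
  rw [e2]
  have e3 : l ^ (p - 2) ≠ 0 := (Real.rpow_pos_of_pos hl _).ne'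
  field_simp

/-- sum over the levels -/
theorem imp_sum {p : ℝ} (hp : 2 < p) {z : E N → ℝ} {Z : E N → E N} (hz : Measurable z)
    {D : ENNReal}
    (h : ∀ l : ℝ, 0 < l →
        ∫⁻ x in {x | 2 * l ≤ |z x| ∧ |z x| < 4 * l}, ENNReal.ofReal (|z x| ^ p) ≤
          D * ∫⁻ x in {x | l ≤ |z x| ∧ |z x| < 2 * l}, ENNReal.ofReal (‖Z x‖ ^ 2)) :
    ∫⁻ x, ENNReal.ofReal (|z x| ^ p) ≤ D * ∫⁻ x, ENNReal.ofReal (‖Z x‖ ^ 2) := by
  set A : ℤ → Set (E N) := fun j => {x | (2 : ℝ) ^ j ≤ |z x| ∧ |z x| < 2 * (2 : ℝ) ^ j} with hA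
  have hAm : ∀ j, MeasurableSet (A j) := fun j =>
    (measurableSet_le measurable_const hz.abs).inter (measurableSet_lt hz.abs measurable_const)
  have hAd : Pairwise (Function.onFun Disjoint A) := by
    intro i j hij
    rw [Function.onFun, Set.disjoint_left]
    rintro x ⟨h1, h2⟩ ⟨h3, h4⟩
    have e : ∀ k : ℤ, 2 * (2 : ℝ) ^ k = (2 : ℝ) ^ (k + 1) := fun k => by
      rw [zpow_add_one₀ (by norm_num)]
      ring
    rw [e] at h2 h4
    have h5 : i < j + 1 := (zpow_lt_zpow_iff_right₀ (by norm_num : (1 : ℝ) < 2)).1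
      (h1.trans_lt h4)
    have h6 : j < i + 1 := (zpow_lt_zpow_iff_right₀ (by norm_num : (1 : ℝ) < 2)).1
      (h3.trans_lt h2)
    exact hij (by omega)
  have hcov : {x | z x ≠ 0} = ⋃ j, A j := by
    ext x
    simp only [Set.mem_ofPred_eq, Set.mem_iUnion]
    constructor
    · intro hx
      obtain ⟨j, h1, h2⟩ := exists_mem_Ico_zpow (abs_pos.2 hx) (by norm_num : (1 : ℝ) < 2)
      refine ⟨j, h1, ?_⟩
      rw [zpow_add_one₀ (by norm_num)] at h2
      linarith
    · rintro ⟨j, h1, -⟩ hx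
      rw [hx, abs_zero] at h1
      exact absurd h1 (not_le.2 (by positivity))
  have h1 : ∫⁻ x, ENNReal.ofReal (|z x| ^ p) = ∑' j, ∫⁻ x in A j, ENNReal.ofReal (|z x| ^ p) := by
    have hcm : MeasurableSet ({x | z x = 0}ᶜ : Set (E N)) :=
      (measurableSet_eq_fun hz measurable_const).compl
    have hce : {x | z x ≠ 0} = ({x | z x = 0}ᶜ : Set (E N)) := rfl
    rw [← lintegral_iUnion hAm hAd, ← hcov, hce, ← lintegral_indicator hcm]
    refine lintegral_congr fun x => ?_
    by_cases hx : z x = 0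
    · have : x ∉ {x | z x = 0}ᶜ := by simpa using hx
      rw [Set.indicator_of_notMem this, hx, abs_zero, Real.zero_rpow (by linarith)]
      simp
    · have : x ∈ {x | z x = 0}ᶜ := by simpa using hx
      rw [Set.indicator_of_mem this]
  have h2 : ∑' j, ∫⁻ x in A j, ENNReal.ofReal (|z x| ^ p) =
      ∑' j, ∫⁻ x in A (j + 1), ENNReal.ofReal (|z x| ^ p) :=
    ((Equiv.addRight (1 : ℤ)).tsum_eq
      (fun j => ∫⁻ x in A j, ENNReal.ofReal (|z x| ^ p))).symm
  rw [h1, h2]
  calc ∑' j, ∫⁻ x in A (j + 1), ENNReal.ofReal (|z x| ^ p)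
      ≤ ∑' j, D * ∫⁻ x in A j, ENNReal.ofReal (‖Z x‖ ^ 2) := by
        refine ENNReal.tsum_le_tsum fun j => ?_
        have h3 := h ((2 : ℝ) ^ j) (by positivity)
        have e : A (j + 1) = {x | 2 * (2 : ℝ) ^ j ≤ |z x| ∧ |z x| < 4 * (2 : ℝ) ^ j} := by
          simp only [hA]
          rw [zpow_add_one₀ (by norm_num)]
          ext x
          simp only [Set.mem_ofPred_eq]
          constructor
          · rintro ⟨a, b⟩
            exact ⟨by linarith, by linarith⟩
          · rintro ⟨a, b⟩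
            exact ⟨by linarith, by linarith⟩
        rw [e]
        exact h3
    _ = D * ∑' j, ∫⁻ x in A j, ENNReal.ofReal (‖Z x‖ ^ 2) := ENNReal.tsum_mul_left
    _ = D * ∫⁻ x in ⋃ j, A j, ENNReal.ofReal (‖Z x‖ ^ 2) := by
        rw [lintegral_iUnion hAm hAd]
    _ ≤ D * ∫⁻ x, ENNReal.ofReal (‖Z x‖ ^ 2) := by
        gcongr
        exact Measure.restrict_le_self

/-- improved Sobolev inequality -/
theorem imp_sob (hN : 1 ≤ N) {p : ℝ} (hp : 2 < p) : ∃ C : ℝ, 0 < C ∧
    ∀ (Ω : Set (E N)) (z : E N → ℝ) (Z : E N → E N) (B : ℝ), H10 Ω z Z → 0 ≤ B →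
      (∀ (x : E N) (r : ℝ), 0 < r →
        ∫ y in Metric.ball x r, |z y| ≤ B * r ^ ((N : ℝ) - 2 / (p - 2))) →
      Integrable (fun x => |z x| ^ p) volume ∧
        ∫ x, |z x| ^ p ≤ C * B ^ (p - 2) * ∫ x, ‖Z x‖ ^ 2 := by
  obtain ⟨C, hC, hlev⟩ := imp_level hN hp
  refine ⟨C, hC, ?_⟩
  intro Ω z Z B hz hB hav
  -- measurable representative
  set z' : E N → ℝ := hz.1.1.mk z with hz'
  have hae : z =ᵐ[volume] z' := hz.1.1.ae_eq_mk
  have hm : Measurable z' := hz.1.1.stronglyMeasurable_mk.measurable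
  have hH : H10 Ω z' Z := hz.congr hae (ae_of_all _ fun _ => rfl)
  have hav' : ∀ B' : ℝ, B ≤ B' → ∀ (x : E N) (r : ℝ), 0 < r →
      ∫ y in Metric.ball x r, |z' y| ≤ B' * r ^ ((N : ℝ) - 2 / (p - 2)) := by
    intro B' hB' x r hr
    have h1 : ∫ y in Metric.ball x r, |z' y| = ∫ y in Metric.ball x r, |z y| := by
      refine integral_congr_ae (ae_restrict_of_ae ?_)
      filter_upwards [hae] with y hy
      rw [hy]
    rw [h1]
    exact (hav x r hr).trans
      (mul_le_mul_of_nonneg_right hB' (Real.rpow_nonneg hr.le _))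
  have hB' : ∀ B' : ℝ, B < B' → ∫⁻ x, ENNReal.ofReal (|z' x| ^ p) ≤
      ENNReal.ofReal (C * B' ^ (p - 2) * ∫ x, ‖Z x‖ ^ 2) := by
    intro B' hB1
    have hB0 : 0 < B' := hB.trans_lt hB1
    have h1 := imp_sum hp hm (hlev Ω z' Z B' hH hm hB0 (hav' B' hB1.le))
    rwa [← ofReal_integral_eq_lintegral_ofReal (sq_norm_integrable hz.2.1)
      (ae_of_all _ fun x => by positivity), ← ENNReal.ofReal_mul
        (mul_nonneg hC.le (Real.rpow_nonneg hB0.le _))] at h1
  have hmeas : AEStronglyMeasurable (fun x => |z' x| ^ p) volume :=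
    meas_abs_rpow (by linarith) hm.aestronglyMeasurable
  have h0 : ∀ᵐ x, 0 ≤ |z' x| ^ p := ae_of_all _ fun x => Real.rpow_nonneg (abs_nonneg _) _
  have hint : Integrable (fun x => |z' x| ^ p) volume := by
    refine ⟨hmeas, ?_⟩
    rw [hasFiniteIntegral_iff_ofReal h0]
    exact (hB' (B + 1) (by linarith)).trans_lt ENNReal.ofReal_lt_top
  have hint' : Integrable (fun x => |z x| ^ p) volume := by
    refine hint.congr ?_
    filter_upwards [hae] with x hx
    rw [hx]
  refine ⟨hint', ?_⟩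
  have e1 : ∫ x, |z x| ^ p = ∫ x, |z' x| ^ p := by
    refine integral_congr_ae ?_
    filter_upwards [hae] with x hx
    rw [hx]
  rw [e1]
  have h2 : ∀ B' : ℝ, B < B' → ∫ x, |z' x| ^ p ≤ C * B' ^ (p - 2) * ∫ x, ‖Z x‖ ^ 2 := by
    intro B' hB1
    have h3 := hB' B' hB1
    rw [← ofReal_integral_eq_lintegral_ofReal hint h0] at h3
    refine (ENNReal.ofReal_le_ofReal_iff ?_).1 h3
    exact mul_nonneg (mul_nonneg hC.le (Real.rpow_nonneg (hB.trans hB1.le) _))
      (integral_nonneg fun x => by positivity)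
  have h4 : Tendsto (fun n : ℕ => C * (B + 1 / ((n : ℝ) + 1)) ^ (p - 2) * ∫ x, ‖Z x‖ ^ 2) atTop
      (𝓝 (C * (B + 0) ^ (p - 2) * ∫ x, ‖Z x‖ ^ 2)) := by
    refine (Tendsto.const_mul C ?_).mul_const _
    exact (tendsto_const_nhds.add tendsto_one_div_add_atTop_nhds_zero_nat).rpow_const
      (Or.inr (by linarith))
  rw [add_zero] at h4
  refine ge_of_tendsto' h4 fun n => h2 _ ?_
  have : 0 < 1 / ((n : ℝ) + 1) := by positivity
  linarith

end Pool.Agent.H25.HX
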