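import Pool.Agent.H25.HX.ExistB

/-! # One step of the implicit scheme: the Euler equation -/

set_option autoImplicit false

open MeasureTheory Filter Topology
open scoped RealInnerProductSpace

namespace Pool.Agent.H25.HX

variable {N : ℕ} {Ω : Set (E N)}

theorem Adm.add {p : ℝ} (hp : 2 < p) {v w : E N → ℝ} {V W : E N → E N} (hv : Adm Ω p v V)
    (hw : Adm Ω p w W) : Adm Ω p (fun x => v x + w x) (fun x => V x + W x) := by
  refine ⟨hv.1.add hw.1, ?_⟩
  refine Integrable.mono' (((hv.2.add hw.2).const_mul ((2 : ℝ) ^ (p - 1))))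
    (meas_abs_rpow (by linarith) (hv.1.add hw.1).1.1) (ae_of_all _ fun x => ?_)
  rw [Real.norm_of_nonneg (Real.rpow_nonneg (abs_nonneg _) _)]
  have h1 : |v x + w x| ^ p ≤ (|v x| + |w x|) ^ p :=
    Real.rpow_le_rpow (abs_nonneg _) (abs_add_le _ _) (by linarith)
  exact h1.trans (real_rpow_add_le (abs_nonneg _) (abs_nonneg _) (by linarith))

theorem Adm.smul {p : ℝ} (hp : 2 < p) {v : E N → ℝ} {V : E N → E N} (t : ℝ)
    (hv : Adm Ω p v V) : Adm Ω p (fun x => t * v x) (fun x => t • V x) := by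
  refine ⟨hv.1.smul t, ?_⟩
  refine (hv.2.const_mul (|t| ^ p)).congr (ae_of_all _ fun x => ?_)
  simp only
  rw [abs_mul, Real.mul_rpow (abs_nonneg _) (abs_nonneg _)]

theorem g_meas {p : ℝ} (hp : 2 < p) {v : E N → ℝ} (hv : AEStronglyMeasurable v volume) :
    AEStronglyMeasurable (fun x => g p (v x)) volume :=
  (g_continuous hp).comp_aestronglyMeasurable hv

theorem g_bound {p : ℝ} (hp : 2 < p) {t : ℝ} (ht : 0 ≤ t) (ht1 : t ≤ 1) (a z : ℝ) :
    |g p (a + t * z) * z| ≤ (2 : ℝ) ^ (p - 1) * (|a| ^ p + |z| ^ p) := by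
  rw [abs_mul, abs_g hp]
  have h1 : |a + t * z| ≤ |a| + |z| := by
    refine (abs_add_le _ _).trans ?_
    rw [abs_mul, abs_of_nonneg ht]
    nlinarith [abs_nonneg z]
  have h2 : |a + t * z| ^ (p - 1) ≤ (|a| + |z|) ^ (p - 1) :=
    Real.rpow_le_rpow (abs_nonneg _) h1 (by linarith)
  have h3 : |z| ≤ |a| + |z| := by linarith [abs_nonneg a]
  have h4 : |a + t * z| ^ (p - 1) * |z| ≤ (|a| + |z|) ^ (p - 1) * (|a| + |z|) :=
    mul_le_mul h2 h3 (abs_nonneg _) (Real.rpow_nonneg (by positivity) _)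
  have h5 : (|a| + |z|) ^ (p - 1) * (|a| + |z|) = (|a| + |z|) ^ p := by
    rcases eq_or_lt_of_le (by positivity : 0 ≤ |a| + |z|) with h | h
    · rw [← h, Real.zero_rpow (by linarith), Real.zero_rpow (by linarith)]
      ring
    · rw [← Real.rpow_add_one h.ne']
      congr 1
      ring
  rw [h5] at h4
  exact h4.trans (real_rpow_add_le (abs_nonneg _) (abs_nonneg _) (by linarith))

theorem gz_int {p : ℝ} (hp : 2 < p) {t : ℝ} (ht : 0 ≤ t) (ht1 : t ≤ 1) {v z : E N → ℝ}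
    {V Z : E N → E N} (hv : Adm Ω p v V) (hz : Adm Ω p z Z) :
    Integrable (fun x => g p (v x + t * z x) * z x) volume := by
  refine Integrable.mono' ((hv.2.add hz.2).const_mul ((2 : ℝ) ^ (p - 1))) ?_
    (ae_of_all _ fun x => g_bound hp ht ht1 (v x) (z x))
  exact (g_meas hp (hv.1.1.1.add (hz.1.1.1.const_mul t))).mul hz.1.1.1

theorem EL_t {p c h : ℝ} (hp : 2 < p) (hc : 0 ≤ c) {R v z : E N → ℝ} {V Z : E N → E N}
    (hR : MemLp R 2 volume) (hv : Adm Ω p v V)
    (hmin : ∀ (w : E N → ℝ) (W : E N → E N), Adm Ω p w W → JJ p c h R v V ≤ JJ p c h R w W)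
    (hz : Adm Ω p z Z) {t : ℝ} (ht : 0 < t) (ht1 : t ≤ 1) :
    0 ≤ (∫ x, v x * z x) + c * (∫ x, g p (v x + t * z x) * z x) +
      h ^ 2 * (∫ x, ⟪V x, Z x⟫) - (∫ x, R x * z x) +
        t / 2 * ((∫ x, z x ^ 2) + h ^ 2 * ∫ x, ‖Z x‖ ^ 2) := by
  have hw : Adm Ω p (fun x => v x + t * z x) (fun x => V x + t • Z x) :=
    hv.add hp (hz.smul hp t)
  have h0 := hmin _ _ hw
  have i1 := sq_int hv.1.1
  have i2 := mul_int hv.1.1 hz.1.1
  have i3 := sq_int hz.1.1
  have e1 : ∫ x, (v x + t * z x) ^ 2 =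
      (∫ x, v x ^ 2) + 2 * t * (∫ x, v x * z x) + t ^ 2 * ∫ x, z x ^ 2 := by
    have h1 := int_lin3 i1 i2 i3 1 (2 * t) (-t ^ 2)
    have h2 : ∫ x, (v x + t * z x) ^ 2 =
        ∫ x, (1 * v x ^ 2 + 2 * t * (v x * z x) - -t ^ 2 * z x ^ 2) :=
      integral_congr_ae (ae_of_all _ fun x => by ring)
    rw [h2, h1]
    ring
  have j1 := sq_norm_integrable hv.1.2.1
  have j2 : Integrable (fun x => (⟪V x, Z x⟫ : ℝ)) volume := by
    have := (hv.1.2.1).norm.integrable_mul (hz.1.2.1).norm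
    refine this.mono (hv.1.2.1.1.inner hz.1.2.1.1) (ae_of_all _ fun x => ?_)
    rw [Real.norm_eq_abs, Pi.mul_apply, norm_mul, norm_norm, norm_norm]
    exact abs_real_inner_le_norm _ _
  have j3 := sq_norm_integrable hz.1.2.1
  have e2 : ∫ x, ‖V x + t • Z x‖ ^ 2 =
      (∫ x, ‖V x‖ ^ 2) + 2 * t * (∫ x, (⟪V x, Z x⟫ : ℝ)) + t ^ 2 * ∫ x, ‖Z x‖ ^ 2 := by
    have h1 := int_lin3 j1 j2 j3 1 (2 * t) (-t ^ 2)
    have h2 : ∫ x, ‖V x + t • Z x‖ ^ 2 =
        ∫ x, (1 * ‖V x‖ ^ 2 + 2 * t * (⟪V x, Z x⟫ : ℝ) - -t ^ 2 * ‖Z x‖ ^ 2) := by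
      refine integral_congr_ae (ae_of_all _ fun x => ?_)
      simp only
      rw [norm_add_sq_real, norm_smul, mul_pow, Real.norm_eq_abs, sq_abs, real_inner_smul_right]
      ring
    rw [h2, h1]
    ring
  have k1 := mul_int hR hv.1.1
  have k2 := mul_int hR hz.1.1
  have e3 : ∫ x, R x * (v x + t * z x) = (∫ x, R x * v x) + t * ∫ x, R x * z x := by
    rw [← integral_const_mul, ← integral_add k1 (k2.const_mul t)]
    exact integral_congr_ae (ae_of_all _ fun x => by ring)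
  have l1 := gz_int hp ht.le ht1 hv hz
  have e4 : (∫ x, |v x + t * z x| ^ p) - ∫ x, |v x| ^ p ≤
      p * t * ∫ x, g p (v x + t * z x) * z x := by
    rw [← integral_sub hw.2 hv.2, ← integral_const_mul]
    apply integral_mono (hw.2.sub hv.2) (l1.const_mul _)
    intro x
    have := rpow_sub_le hp (v x + t * z x) (v x)
    simp only [Pi.sub_apply]
    refine this.trans (le_of_eq ?_)
    ring
  have hp0 : 0 < p := by linarith
  have e5 : c / p * (∫ x, |v x + t * z x| ^ p) - c / p * (∫ x, |v x| ^ p) ≤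
      c * t * ∫ x, g p (v x + t * z x) * z x := by
    have h1 := mul_le_mul_of_nonneg_left e4 (div_nonneg hc hp0.le)
    have h2 : c / p * (p * t * ∫ x, g p (v x + t * z x) * z x) =
        c * t * ∫ x, g p (v x + t * z x) * z x := by
      field_simp
    rw [h2] at h1
    linarith
  simp only [JJ] at h0
  rw [e1, e2, e3] at h0
  have h3 : 0 ≤ t * ((∫ x, v x * z x) + c * (∫ x, g p (v x + t * z x) * z x) +
      h ^ 2 * (∫ x, ⟪V x, Z x⟫) - (∫ x, R x * z x) +
        t / 2 * ((∫ x, z x ^ 2) + h ^ 2 * ∫ x, ‖Z x‖ ^ 2)) := by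
    nlinarith
  exact nonneg_of_mul_nonneg_right h3 ht

theorem EL_ineq {p c h : ℝ} (hp : 2 < p) (hc : 0 ≤ c) {R v z : E N → ℝ} {V Z : E N → E N}
    (hR : MemLp R 2 volume) (hv : Adm Ω p v V)
    (hmin : ∀ (w : E N → ℝ) (W : E N → E N), Adm Ω p w W → JJ p c h R v V ≤ JJ p c h R w W)
    (hz : Adm Ω p z Z) :
    0 ≤ (∫ x, v x * z x) + c * (∫ x, g p (v x) * z x) +
      h ^ 2 * (∫ x, ⟪V x, Z x⟫) - (∫ x, R x * z x) := by
  have ht : ∀ n : ℕ, (0 : ℝ) < 1 / ((n : ℝ) + 1) := fun n => by positivity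
  have ht1 : ∀ n : ℕ, (1 : ℝ) / ((n : ℝ) + 1) ≤ 1 := fun n => by
    rw [div_le_one (by positivity)]
    have : (0 : ℝ) ≤ n := Nat.cast_nonneg n
    linarith
  have h1 := fun n : ℕ => EL_t hp hc hR hv hmin hz (ht n) (ht1 n)
  have h2 : Tendsto (fun n : ℕ => ∫ x, g p (v x + 1 / ((n : ℝ) + 1) * z x) * z x) atTop
      (𝓝 (∫ x, g p (v x) * z x)) := by
    apply tendsto_integral_of_dominated_convergence
      (fun x => (2 : ℝ) ^ (p - 1) * (|v x| ^ p + |z x| ^ p))
    · exact fun n => (gz_int hp (ht n).le (ht1 n) hv hz).1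
    · exact (hv.2.add hz.2).const_mul _
    · exact fun n => ae_of_all _ fun x => g_bound hp (ht n).le (ht1 n) (v x) (z x)
    · refine ae_of_all _ fun x => ?_
      have h3 : Tendsto (fun n : ℕ => v x + 1 / ((n : ℝ) + 1) * z x) atTop
          (𝓝 (v x + 0 * z x)) :=
        tendsto_const_nhds.add (tendsto_one_div_add_atTop_nhds_zero_nat.mul_const _)
      rw [zero_mul, add_zero] at h3
      exact (((g_continuous hp).tendsto _).comp h3).mul_const _
  have h3 : Tendsto (fun n : ℕ => (∫ x, v x * z x) +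
      c * (∫ x, g p (v x + 1 / ((n : ℝ) + 1) * z x) * z x) +
      h ^ 2 * (∫ x, ⟪V x, Z x⟫) - (∫ x, R x * z x) +
        1 / ((n : ℝ) + 1) / 2 * ((∫ x, z x ^ 2) + h ^ 2 * ∫ x, ‖Z x‖ ^ 2)) atTop
      (𝓝 ((∫ x, v x * z x) + c * (∫ x, g p (v x) * z x) +
      h ^ 2 * (∫ x, ⟪V x, Z x⟫) - (∫ x, R x * z x) +
        0 / 2 * ((∫ x, z x ^ 2) + h ^ 2 * ∫ x, ‖Z x‖ ^ 2))) := by
    refine Tendsto.add ?_ ?_
    · exact ((tendsto_const_nhds.add (h2.const_mul c)).add tendsto_const_nhds).sub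
        tendsto_const_nhds
    · exact (tendsto_one_div_add_atTop_nhds_zero_nat.div_const 2).mul_const _
  have h4 := ge_of_tendsto' h3 h1
  simpa using h4

theorem EL_eq {p c h : ℝ} (hp : 2 < p) (hc : 0 ≤ c) {R v z : E N → ℝ} {V Z : E N → E N}
    (hR : MemLp R 2 volume) (hv : Adm Ω p v V)
    (hmin : ∀ (w : E N → ℝ) (W : E N → E N), Adm Ω p w W → JJ p c h R v V ≤ JJ p c h R w W)
    (hz : Adm Ω p z Z) :
    (∫ x, v x * z x) + c * (∫ x, g p (v x) * z x) +
      h ^ 2 * (∫ x, ⟪V x, Z x⟫) = ∫ x, R x * z x := by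
  have h1 := EL_ineq hp hc hR hv hmin hz
  have h2 := EL_ineq hp hc hR hv hmin (hz.smul hp (-1))
  have e1 : ∀ f : E N → ℝ, ∫ x, f x * (-1 * z x) = -∫ x, f x * z x := fun f => by
    rw [← integral_neg]
    exact integral_congr_ae (ae_of_all _ fun x => by ring)
  have e2 : ∫ x, (⟪V x, (-1 : ℝ) • Z x⟫ : ℝ) = -∫ x, ⟪V x, Z x⟫ := by
    rw [← integral_neg]
    exact integral_congr_ae (ae_of_all _ fun x => by simp)
  rw [e1, e1, e1, e2] at h2
  linarith

/-- smooth truncation -/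
noncomputable def TL (L s : ℝ) : ℝ := s / Real.sqrt (1 + s ^ 2 / L ^ 2)

theorem TL_facts {L : ℝ} (hL : 0 < L) :
    ContDiff ℝ 1 (TL L) ∧ TL L 0 = 0 ∧ (∀ s, |TL L s| ≤ L) ∧ (∀ s, |TL L s| ≤ |s|) ∧
      (∀ s, 0 ≤ deriv (TL L) s) ∧ (∀ s, deriv (TL L) s ≤ 1) ∧ (∀ s, 0 ≤ TL L s * s) := by
  have hpos : ∀ s : ℝ, 0 < 1 + s ^ 2 / L ^ 2 := fun s => by positivity
  have hsq : ∀ s : ℝ, 0 < Real.sqrt (1 + s ^ 2 / L ^ 2) := fun s => Real.sqrt_pos.2 (hpos s)
  have hd : ∀ s, HasDerivAt (TL L)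
      (1 / (Real.sqrt (1 + s ^ 2 / L ^ 2) * (1 + s ^ 2 / L ^ 2))) s := by
    intro s
    have h1 : HasDerivAt (fun s : ℝ => 1 + s ^ 2 / L ^ 2) (2 * s / L ^ 2) s := by
      have := ((hasDerivAt_pow 2 s).div_const (L ^ 2)).const_add 1
      simpa using this
    have h2 := h1.sqrt (hpos s).ne'
    have h3 := (hasDerivAt_id s).div h2 (hsq s).ne'
    have h4 : (1 * Real.sqrt (1 + s ^ 2 / L ^ 2) -
        id s * (2 * s / L ^ 2 / (2 * Real.sqrt (1 + s ^ 2 / L ^ 2)))) /
          Real.sqrt (1 + s ^ 2 / L ^ 2) ^ 2 =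
        1 / (Real.sqrt (1 + s ^ 2 / L ^ 2) * (1 + s ^ 2 / L ^ 2)) := by
      have e1 := Real.sq_sqrt (hpos s).le
      set q := Real.sqrt (1 + s ^ 2 / L ^ 2) with hq
      have hq0 : q ≠ 0 := (hsq s).ne'
      have e2 : s ^ 2 = (q ^ 2 - 1) * L ^ 2 := by
        rw [e1]
        field_simp
        ring
      rw [← e1]
      simp only [id]
      field_simp
      rw [e2]
      field_simp
      ring
    rw [h4] at h3
    exact h3
  refine ⟨?_, by simp [TL], ?_, ?_, ?_, ?_, ?_⟩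
  · rw [contDiff_one_iff_deriv]
    refine ⟨fun s => (hd s).differentiableAt, ?_⟩
    have : deriv (TL L) = fun s => 1 / (Real.sqrt (1 + s ^ 2 / L ^ 2) * (1 + s ^ 2 / L ^ 2)) :=
      funext fun s => (hd s).deriv
    rw [this]
    refine Continuous.div continuous_const ?_ (fun s => (mul_pos (hsq s) (hpos s)).ne')
    fun_prop
  · intro s
    rw [TL, abs_div, abs_of_pos (hsq s), div_le_iff₀ (hsq s)]
    have h1 : |s| / L ≤ Real.sqrt (1 + s ^ 2 / L ^ 2) := by
      apply Real.le_sqrt_of_sq_le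
      rw [div_pow, sq_abs]
      linarith
    rwa [div_le_iff₀ hL, mul_comm] at h1
  · intro s
    rw [TL, abs_div, abs_of_pos (hsq s), div_le_iff₀ (hsq s)]
    have h1 : 1 ≤ Real.sqrt (1 + s ^ 2 / L ^ 2) := by
      rw [Real.one_le_sqrt]
      have : 0 ≤ s ^ 2 / L ^ 2 := by positivity
      linarith
    nlinarith [abs_nonneg s]
  · intro s
    rw [(hd s).deriv]
    have := hsq s
    have := hpos s
    positivity
  · intro s
    rw [(hd s).deriv]
    have h0 : 0 ≤ s ^ 2 / L ^ 2 := by positivity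
    have h1 : 1 ≤ Real.sqrt (1 + s ^ 2 / L ^ 2) := by
      rw [Real.one_le_sqrt]
      linarith
    rw [div_le_one (mul_pos (hsq s) (hpos s))]
    nlinarith
  · intro s
    rw [TL, div_mul_eq_mul_div]
    exact div_nonneg (mul_self_nonneg s) (hsq s).le

theorem TL_tendsto (s : ℝ) : Tendsto (fun n : ℕ => TL ((n : ℝ) + 1) s) atTop (𝓝 s) := by
  have h1 : Tendsto (fun n : ℕ => s ^ 2 / ((n : ℝ) + 1) ^ 2) atTop (𝓝 0) := by
    have h2 := (tendsto_one_div_add_atTop_nhds_zero_nat (𝕜 := ℝ)).pow 2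
    have h3 := h2.const_mul (s ^ 2)
    simp only [one_div, ne_eq, OfNat.ofNat_ne_zero, not_false_eq_true, zero_pow, mul_zero] at h3
    refine h3.congr fun n => ?_
    rw [inv_pow, div_eq_mul_inv]
  have h4 : Tendsto (fun n : ℕ => Real.sqrt (1 + s ^ 2 / ((n : ℝ) + 1) ^ 2)) atTop
      (𝓝 (Real.sqrt (1 + 0))) := (tendsto_const_nhds.add h1).sqrt
  have h5 : Tendsto (fun n : ℕ => s / Real.sqrt (1 + s ^ 2 / ((n : ℝ) + 1) ^ 2)) atTop
      (𝓝 (s / Real.sqrt (1 + 0))) := tendsto_const_nhds.div h4 (by simp)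
  simpa [TL] using h5

/-- `g(v) ∈ L²` -/
theorem gv_mem {p c h : ℝ} (hp : 2 < p) (hc : 0 < c) {R v : E N → ℝ} {V : E N → E N}
    (hR : MemLp R 2 volume) (hv : Adm Ω p v V)
    (hEL : ∀ (z : E N → ℝ) (Z : E N → E N), Adm Ω p z Z →
      (∫ x, v x * z x) + c * (∫ x, g p (v x) * z x) +
      h ^ 2 * (∫ x, ⟪V x, Z x⟫) = ∫ x, R x * z x) :
    MemLp (fun x => g p (v x)) 2 volume := by
  have key : ∀ L : ℝ, 0 < L → Integrable (fun x => g p (TL L (v x)) ^ 2) volume ∧
      ∫ x, g p (TL L (v x)) ^ 2 ≤ (∫ x, R x ^ 2) / c ^ 2 := by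
    intro L hL
    obtain ⟨t1, t2, t3, t4, t5, t6, t7⟩ := TL_facts hL
    have hF : ContDiff ℝ 1 (fun s => g p (TL L s)) := (g_contDiff hp).comp t1
    have hF0 : g p (TL L 0) = 0 := by rw [t2, g_zero]
    have hd : ∀ s, deriv (fun s => g p (TL L s)) s =
        (p - 1) * |TL L s| ^ (p - 2) * deriv (TL L) s := by
      intro s
      have h1 : HasDerivAt (TL L) (deriv (TL L) s) s :=
        ((t1.differentiable (by norm_num)) s).hasDerivAt
      exact ((g_hasDerivAt hp (TL L s)).comp s h1).deriv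
    have hd0 : ∀ s, 0 ≤ deriv (fun s => g p (TL L s)) s := by
      intro s
      rw [hd]
      exact mul_nonneg (mul_nonneg (by linarith) (Real.rpow_nonneg (abs_nonneg _) _)) (t5 s)
    have hd1 : ∀ s, |deriv (fun s => g p (TL L s)) s| ≤ (p - 1) * L ^ (p - 2) := by
      intro s
      rw [abs_of_nonneg (hd0 s), hd]
      have h1 : |TL L s| ^ (p - 2) ≤ L ^ (p - 2) :=
        Real.rpow_le_rpow (abs_nonneg _) (t3 s) (by linarith)
      have h2 : 0 ≤ |TL L s| ^ (p - 2) := Real.rpow_nonneg (abs_nonneg _) _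
      have h3 : |TL L s| ^ (p - 2) * deriv (TL L) s ≤ L ^ (p - 2) * 1 :=
        mul_le_mul h1 (t6 s) (t5 s) (h2.trans h1)
      rw [mul_assoc]
      refine mul_le_mul_of_nonneg_left ?_ (by linarith)
      linarith
    have hz := hv.1.comp hF hF0 hd1
    set z : E N → ℝ := fun x => g p (TL L (v x)) with hzdef
    have hzb : ∀ x, |z x| ≤ L ^ (p - 1) := by
      intro x
      rw [hzdef]
      simp only
      rw [abs_g hp]
      exact Real.rpow_le_rpow (abs_nonneg _) (t3 _) (by linarith)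
    have hzA : Adm Ω p z (fun x => deriv (fun s => g p (TL L s)) (v x) • V x) := by
      refine ⟨hz, ?_⟩
      refine Integrable.mono' ((sq_int hz.1).const_mul ((L ^ (p - 1)) ^ (p - 2)))
        (meas_abs_rpow (by linarith) hz.1.1) (ae_of_all _ fun x => ?_)
      rw [Real.norm_of_nonneg (Real.rpow_nonneg (abs_nonneg _) _)]
      have h1 : |z x| ^ p = |z x| ^ (p - 2) * z x ^ 2 := by
        rw [← g_mul_self hp, g]
        ring
      rw [h1]
      refine mul_le_mul_of_nonneg_right ?_ (sq_nonneg _)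
      exact Real.rpow_le_rpow (abs_nonneg _) (hzb x) (by linarith)
    have h1 := hEL _ _ hzA
    have i1 := sq_int hz.1
    refine ⟨i1, ?_⟩
    have h2 : 0 ≤ ∫ x, v x * z x := by
      refine integral_nonneg fun x => ?_
      simp only [hzdef, g, Pi.zero_apply]
      have := t7 (v x)
      have h3 : 0 ≤ |TL L (v x)| ^ (p - 2) := Real.rpow_nonneg (abs_nonneg _) _
      nlinarith [mul_nonneg h3 this]
    have h3 : 0 ≤ ∫ x, (⟪V x, deriv (fun s => g p (TL L s)) (v x) • V x⟫ : ℝ) := by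
      refine integral_nonneg fun x => ?_
      simp only [Pi.zero_apply]
      rw [real_inner_smul_right, real_inner_self_eq_norm_sq]
      exact mul_nonneg (hd0 _) (by positivity)
    have i2 : Integrable (fun x => g p (v x) * z x) volume := by
      have := gz_int hp le_rfl zero_le_one hv hzA
      simpa using this
    have h4 : ∫ x, z x ^ 2 ≤ ∫ x, g p (v x) * z x := by
      apply integral_mono i1 i2
      intro x
      simp only
      rcases le_total 0 (v x) with hx | hx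
      · have a1 : 0 ≤ TL L (v x) := by
          rw [TL]
          positivity
        have a2 : TL L (v x) ≤ v x := by
          have := t4 (v x)
          rwa [abs_of_nonneg a1, abs_of_nonneg hx] at this
        have a3 : 0 ≤ z x := by
          have := g_mono hp a1
          rwa [g_zero] at this
        have a4 : z x ≤ g p (v x) := g_mono hp a2
        nlinarith
      · have a1 : TL L (v x) ≤ 0 := by
          rw [TL]
          exact div_nonpos_of_nonpos_of_nonneg hx (Real.sqrt_nonneg _)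
        have a2 : v x ≤ TL L (v x) := by
          have := t4 (v x)
          rw [abs_of_nonpos a1, abs_of_nonpos hx] at this
          linarith
        have a3 : z x ≤ 0 := by
          have := g_mono hp a1
          rwa [g_zero] at this
        have a4 : g p (v x) ≤ z x := g_mono hp a2
        nlinarith
    have h5 : c * (∫ x, R x * z x) ≤ ∫ x, (1 / 2 * R x ^ 2 + c ^ 2 / 2 * z x ^ 2) := by
      rw [← integral_const_mul]
      apply integral_mono ((mul_int hR hz.1).const_mul c)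
        (((sq_int hR).const_mul _).add (i1.const_mul _))
      intro x
      simp only [Pi.add_apply]
      nlinarith [sq_nonneg (R x - c * z x)]
    rw [integral_add ((sq_int hR).const_mul _) (i1.const_mul _), integral_const_mul,
      integral_const_mul] at h5
    rw [le_div_iff₀ (by positivity)]
    have h6 : 0 ≤ h ^ 2 * ∫ x, (⟪V x, deriv (fun s => g p (TL L s)) (v x) • V x⟫ : ℝ) :=
      mul_nonneg (sq_nonneg _) h3
    have h7 : c * (∫ x, z x ^ 2) ≤ ∫ x, R x * z x := by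
      have := mul_le_mul_of_nonneg_left h4 hc.le
      linarith
    have h8 := mul_le_mul_of_nonneg_left h7 hc.le
    nlinarith
  have hgm : AEStronglyMeasurable (fun x => g p (v x)) volume := g_meas hp hv.1.1.1
  rw [memLp_two_iff_integrable_sq hgm]
  refine (fatou_real (F := fun n x => g p (TL ((n : ℝ) + 1) (v x)) ^ 2)
    (fun n => (key _ (by positivity)).1) (fun n x => sq_nonneg _) (hgm.pow 2)
    (ae_of_all _ fun x => ?_) (fun n => (key _ (by positivity)).2)).1
  exact (((g_continuous hp).tendsto _).comp (TL_tendsto (v x))).pow 2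

/-- one step of the implicit scheme -/
theorem one_step {p a h : ℝ} (hp : 2 < p) (ha : 0 < a) (hh : 0 < h) {R : E N → ℝ}
    (hR : MemLp R 2 volume) : ∃ (v : E N → ℝ) (V : E N → E N), H10 Ω v V ∧
      MemLp (fun x => g p (v x)) 2 volume ∧ Integrable (fun x => |v x| ^ p) volume ∧
      ∀ (z : E N → ℝ) (Z : E N → E N), H10 Ω z Z →
        (∫ x, v x * z x) + h * a * (∫ x, g p (v x) * z x) + h ^ 2 * (∫ x, ⟪V x, Z x⟫) =
          ∫ x, R x * z x := by
  have hc : 0 < h * a := mul_pos hh ha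
  obtain ⟨v, V, hv, hmin⟩ := JJ_min (Ω := Ω) hp hc hh hR
  have hEL : ∀ (z : E N → ℝ) (Z : E N → E N), Adm Ω p z Z →
      (∫ x, v x * z x) + h * a * (∫ x, g p (v x) * z x) +
      h ^ 2 * (∫ x, ⟪V x, Z x⟫) = ∫ x, R x * z x :=
    fun z Z hz => EL_eq hp hc.le hR hv hmin hz
  have hg := gv_mem hp hc hR hv hEL
  refine ⟨v, V, hv.1, hg, hv.2, ?_⟩
  set ζ : E N → ℝ := fun x => (R x - v x - h * a * g p (v x)) / h ^ 2 with hζ
  have mζ : MemLp ζ 2 volume := by
    have := ((hR.sub hv.1.1).sub (hg.const_mul (h * a))).const_mul (1 / h ^ 2)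
    refine this.ae_eq (ae_of_all _ fun x => ?_)
    simp only [hζ, Pi.sub_apply]
    ring
  have hsplit : ∀ w : E N → ℝ, MemLp w 2 volume → h ^ 2 * (∫ x, ζ x * w x) =
      (∫ x, R x * w x) - (∫ x, v x * w x) - h * a * (∫ x, g p (v x) * w x) := by
    intro w hw
    rw [← integral_const_mul]
    have h1 := int_lin3 (mul_int hR hw) (mul_int hv.1.1 hw) (mul_int hg hw) 1 (-1) (h * a)
    have h2 : ∫ x, h ^ 2 * (ζ x * w x) =
        ∫ x, (1 * (R x * w x) + -1 * (v x * w x) - h * a * (g p (v x) * w x)) := by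
      refine integral_congr_ae (ae_of_all _ fun x => ?_)
      simp only [hζ]
      field_simp
      ring
    rw [h2, h1]
    ring
  have htest : ∀ φ : E N → ℝ, Tst Ω φ → ∫ x, ⟪V x, gradient φ x⟫ = ∫ x, ζ x * φ x := by
    intro φ hφ
    have hA : Adm Ω p φ (gradient φ) := by
      refine ⟨hφ.h10, ?_⟩
      refine Continuous.integrable_of_hasCompactSupport
        ((abs_rpow_continuous (by linarith : 0 ≤ p)).comp hφ.1.continuous) ?_
      refine hφ.2.1.comp_left (g := fun s : ℝ => |s| ^ p) ?_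
      rw [abs_zero, Real.zero_rpow (by linarith)]
    have h1 := hEL _ _ hA
    have h2 := hsplit φ hφ.mem
    have h3 : h ^ 2 * (∫ x, ⟪V x, gradient φ x⟫) = h ^ 2 * ∫ x, ζ x * φ x := by linarith
    exact mul_left_cancel₀ (by positivity) h3
  intro z Z hz
  have h1 := H10.test hv.1.2.1 mζ htest hz
  have h2 := hsplit z hz.1
  rw [h1]
  linarith

end Pool.Agent.H25.HX
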