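import Mathlib

/-!
# Base definitions (supercritically damped wave equations, discrete time)
-/

set_option autoImplicit false

open MeasureTheory
open scoped RealInnerProductSpace

namespace Pool.Agent.H25.HX

/-- Euclidean space `ℝᴺ` -/
abbrev E (N : ℕ) : Type := EuclideanSpace ℝ (Fin N)

/-- the nonlinearity `g(s) = |s|^(p-2) s` -/
noncomputable def g (p s : ℝ) : ℝ := |s| ^ (p - 2) * s

/-- test functions: `C¹` with compact support inside `Ω` -/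
def Tst {N : ℕ} (Ω : Set (E N)) (φ : E N → ℝ) : Prop :=
  ContDiff ℝ 1 φ ∧ HasCompactSupport φ ∧ tsupport φ ⊆ Ω

/-- `(u, U)`: `u ∈ H¹₀(Ω)` (extended by `0`) and `U = ∇u`; limits of pairs `(φ, ∇φ)`, `φ` a test
function -/
def H10 {N : ℕ} (Ω : Set (E N)) (u : E N → ℝ) (U : E N → E N) : Prop :=
  MemLp u 2 volume ∧ MemLp U 2 volume ∧
    ∀ δ : ℝ, 0 < δ → ∃ φ : E N → ℝ, Tst Ω φ ∧
      ∫ x, (u x - φ x) ^ 2 ≤ δ ∧ ∫ x, ‖U x - gradient φ x‖ ^ 2 ≤ δ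

/-- the weight `exp(-√(1+|x-x₀|²/r²))` -/
noncomputable def wt {N : ℕ} (x₀ : E N) (r : ℝ) (x : E N) : ℝ :=
  Real.exp (-Real.sqrt (1 + ‖x - x₀‖ ^ 2 / r ^ 2))

/-- discrete velocity -/
noncomputable def vel {N : ℕ} (k : ℝ) (u : ℕ → E N → ℝ) (n : ℕ) (x : E N) : ℝ :=
  (u n x - u (n - 1) x) / k

/-- discrete acceleration -/
noncomputable def acc {N : ℕ} (k : ℝ) (u : ℕ → E N → ℝ) (n : ℕ) (x : E N) : ℝ :=
  (vel k u n x - vel k u (n - 1) x) / k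

/-- exponentially weighted time sums, `S k F n = ∑_{1 ≤ j ≤ n} k (1+k)^{-(n-j)} F j` -/
noncomputable def S (k : ℝ) (F : ℕ → ℝ) : ℕ → ℝ
  | 0 => 0
  | n + 1 => (1 + k)⁻¹ * S k F n + k * F (n + 1)

/-- the critical Morrey exponent `lc = N - 2p/(p-2)` -/
noncomputable def lc (N : ℕ) (p : ℝ) : ℝ := N - 2 * p / (p - 2)

/-- exponent of the relaxation time: `τ_r = r ^ tex` -/
noncomputable def tex (N : ℕ) (p lam : ℝ) : ℝ := (lam - lc N p) * (p - 2) / (2 * (p - 1))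

/-- conjugate exponent `q = p/(p-1)` -/
noncomputable def cq (p : ℝ) : ℝ := p / (p - 1)

/-- admissible parameters -/
structure Par (N : ℕ) (p lam : ℝ) : Prop where
  hN : 3 ≤ N
  hp : 2 * (N : ℝ) / (N - 2) < p
  hlc : lc N p < lam
  hlam : lam < N - 2
  htex : tex N p lam ≤ 1

/-- discrete solutions with zero data of `ε² u_tt - Δu + g(u_t) = f` (backward Euler, step `k`;
truncated subtraction in the time index, everything vanishes at `n = 0`) -/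
structure DSol {N : ℕ} (Ω : Set (E N)) (p k ε : ℝ) (f u : ℕ → E N → ℝ) (U : ℕ → E N → E N) :
    Prop where
  kpos : 0 < k
  mem : ∀ n, H10 Ω (u n) (U n)
  zero : ∀ x, u 0 x = 0
  zeroU : ∀ x, U 0 x = 0
  zerof : ∀ x, f 0 x = 0
  fmem : ∀ n, MemLp (f n) 2 volume
  gmem : ∀ n, MemLp (fun x => g p (vel k u n x)) 2 volume
  eqn : ∀ n, ∀ (z : E N → ℝ) (Z : E N → E N), H10 Ω z Z →
    ∫ x, ⟪U n x, Z x⟫ = ∫ x, (f n x - g p (vel k u n x) - ε ^ 2 * acc k u n x) * z x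

/-- normalised solutions: Morrey bound with exponent `lam` and constant `1` on the whole past -/
structure Nrm {N : ℕ} (p lam k ε η : ℝ) (J : ℕ) (Ω : Set (E N)) (f u : ℕ → E N → ℝ)
    (U : ℕ → E N → E N) : Prop where
  sol : DSol Ω p k ε f u U
  k1 : k ≤ 1
  ε0 : 0 < ε
  ε1 : ε ≤ 1
  η0 : 0 ≤ η
  η1 : η ≤ 1
  mor : ∀ n ≤ J, ∀ (x₀ : E N) (r : ℝ), 0 < r →
    ∫ x, wt x₀ r x * (ε ^ 2 * vel k u n x ^ 2 + ‖U n x‖ ^ 2) ≤ r ^ lam
  frc : ∀ n ≤ J, ∀ (x₀ : E N) (r : ℝ), 0 < r → r ≤ 1 →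
    ∫ x, wt x₀ r x * f n x ^ 2 ≤ η ^ 2 * r ^ (lam - 2)

/-- time difference of velocities -/
noncomputable def dv {N : ℕ} (k : ℝ) (u : ℕ → E N → ℝ) (m n : ℕ) (x : E N) : ℝ :=
  vel k u n x - vel k u (n - m) x

/-- time difference of `g(velocity)` -/
noncomputable def dz {N : ℕ} (p k : ℝ) (u : ℕ → E N → ℝ) (m n : ℕ) (x : E N) : ℝ :=
  g p (vel k u n x) - g p (vel k u (n - m) x)

/-- `∫ w δz δv` -/
noncomputable def XX {N : ℕ} (p k : ℝ) (u : ℕ → E N → ℝ) (x₀ : E N) (m n : ℕ) : ℝ :=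
  ∫ x, wt x₀ 1 x * (dz p k u m n x * dv k u m n x)

/-- `∫ w |∇(u_n - u_{n-m})|²` -/
noncomputable def YY {N : ℕ} (U : ℕ → E N → E N) (x₀ : E N) (m n : ℕ) : ℝ :=
  ∫ x, wt x₀ 1 x * ‖U n x - U (n - m) x‖ ^ 2

/-- energy of the time difference -/
noncomputable def ZZ {N : ℕ} (k ε : ℝ) (u : ℕ → E N → ℝ) (U : ℕ → E N → E N) (x₀ : E N)
    (m n : ℕ) : ℝ :=
  ∫ x, wt x₀ 1 x * (ε ^ 2 * dv k u m n x ^ 2 + ‖U n x - U (n - m) x‖ ^ 2)

/-- the exponent `lam'` -/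
noncomputable def lamp (N : ℕ) (p lam : ℝ) : ℝ := lam - tex N p lam

end Pool.Agent.H25.HX
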