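import Pool.Agent.H25.HX.Base

/-! # Real inequalities for `g(s) = |s|^(p-2) s` -/

set_option autoImplicit false

open MeasureTheory Filter Topology

namespace Pool.Agent.H25.HX

theorem g_neg (p s : ℝ) : g p (-s) = -g p s := by
  simp [g]

theorem g_zero (p : ℝ) : g p 0 = 0 := by simp [g]

theorem g_of_nonneg {p : ℝ} (hp : 2 < p) {s : ℝ} (hs : 0 ≤ s) : g p s = s ^ (p - 1) := by
  rcases hs.eq_or_lt with h | h
  · subst h
    rw [g_zero, Real.zero_rpow (by linarith)]
  · rw [g, abs_of_pos h, show p - 1 = (p - 2) + 1 by ring, Real.rpow_add_one h.ne']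

theorem abs_g {p : ℝ} (hp : 2 < p) (s : ℝ) : |g p s| = |s| ^ (p - 1) := by
  rcases eq_or_ne s 0 with h | h
  · subst h
    rw [g_zero, abs_zero, Real.zero_rpow (by linarith)]
  · have h1 : 0 < |s| := abs_pos.2 h
    rw [g, abs_mul, abs_of_nonneg (Real.rpow_nonneg (abs_nonneg s) _),
      show p - 1 = (p - 2) + 1 by ring, Real.rpow_add_one h1.ne']

theorem g_mul_self {p : ℝ} (hp : 2 < p) (s : ℝ) : g p s * s = |s| ^ p := by
  rcases eq_or_ne s 0 with h | h
  · subst h
    rw [g_zero, abs_zero, Real.zero_rpow (by linarith)]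
    ring
  · have h1 : 0 < |s| := abs_pos.2 h
    rw [g, mul_assoc, ← abs_mul_abs_self s, ← mul_assoc]
    rw [← Real.rpow_add_one h1.ne', ← Real.rpow_add_one h1.ne']
    congr 1
    ring

/-- scaling -/
theorem g_mul {p : ℝ} (hp : 2 < p) {c : ℝ} (hc : 0 < c) (s : ℝ) :
    g p (c * s) = c ^ (p - 1) * g p s := by
  rw [g, g, abs_mul, abs_of_pos hc, Real.mul_rpow hc.le (abs_nonneg s),
    show p - 1 = (p - 2) + 1 by ring, Real.rpow_add_one hc.ne']
  ring

theorem g_hasDerivAt {p : ℝ} (hp : 2 < p) (s : ℝ) :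
    HasDerivAt (g p) ((p - 1) * |s| ^ (p - 2)) s := by
  rcases lt_trichotomy s 0 with h | h | h
  · have h1 : HasDerivAt (fun x : ℝ => -(-x) ^ (p - 1)) ((p - 1) * |s| ^ (p - 2)) s := by
      have h2 : HasDerivAt (fun x : ℝ => -x) (-1) s := hasDerivAt_neg s
      have h3 := (h2.rpow_const (p := p - 1) (Or.inl (by linarith : -s ≠ 0))).neg
      have h4 : -(-1 * (p - 1) * (-s) ^ (p - 1 - 1)) = (p - 1) * |s| ^ (p - 2) := by
        rw [abs_of_neg h, show p - 1 - 1 = p - 2 by ring]
        ring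
      rw [h4] at h3
      exact h3
    refine h1.congr_of_eventuallyEq ?_
    filter_upwards [Iio_mem_nhds h] with x hx
    have hx' : 0 ≤ -x := by
      have : x < 0 := hx
      linarith
    have := g_of_nonneg hp hx'
    rw [g_neg] at this
    linarith
  · subst h
    have h2 : (p - 1) * |(0 : ℝ)| ^ (p - 2) = 0 := by
      rw [abs_zero, Real.zero_rpow (by linarith), mul_zero]
    rw [h2, hasDerivAt_iff_isLittleO_nhds_zero]
    simp only [zero_add, g_zero, sub_zero, smul_zero]
    have h3 : (fun h : ℝ => g p h) = fun h : ℝ => |h| ^ (p - 2) * h := rfl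
    rw [h3]
    have h4 : Tendsto (fun h : ℝ => |h| ^ (p - 2)) (𝓝 0) (𝓝 0) := by
      have h5 : ContinuousAt (fun h : ℝ => |h| ^ (p - 2)) 0 :=
        (continuous_abs.continuousAt).rpow_const (Or.inr (by linarith))
      have h6 := h5.tendsto
      simpa [abs_zero, Real.zero_rpow (by linarith : p - 2 ≠ 0)] using h6
    have h5 : (fun h : ℝ => |h| ^ (p - 2) * h) =o[𝓝 0] fun h : ℝ => (1 : ℝ) * h :=
      ((Asymptotics.isLittleO_one_iff ℝ).2 h4).mul_isBigO (Asymptotics.isBigO_refl _ _)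
    simpa using h5
  · have h1 : HasDerivAt (fun x : ℝ => x ^ (p - 1)) ((p - 1) * |s| ^ (p - 2)) s := by
      have h3 := Real.hasDerivAt_rpow_const (p := p - 1) (Or.inl h.ne')
      convert h3 using 1
      rw [abs_of_pos h, show p - 1 - 1 = p - 2 by ring]
    refine h1.congr_of_eventuallyEq ?_
    filter_upwards [Ioi_mem_nhds h] with x hx
    exact g_of_nonneg hp (le_of_lt hx)

theorem g_continuous {p : ℝ} (hp : 2 < p) : Continuous (g p) :=
  continuous_iff_continuousAt.2 fun s => (g_hasDerivAt hp s).continuousAt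

theorem g_deriv {p : ℝ} (hp : 2 < p) (s : ℝ) : deriv (g p) s = (p - 1) * |s| ^ (p - 2) :=
  (g_hasDerivAt hp s).deriv

theorem abs_rpow_continuous {b : ℝ} (hb : 0 ≤ b) : Continuous fun s : ℝ => |s| ^ b :=
  continuous_abs.rpow_const fun _ => Or.inr hb

theorem g_contDiff {p : ℝ} (hp : 2 < p) : ContDiff ℝ 1 (g p) := by
  rw [contDiff_one_iff_deriv]
  refine ⟨fun s => (g_hasDerivAt hp s).differentiableAt, ?_⟩
  have : deriv (g p) = fun s => (p - 1) * |s| ^ (p - 2) := funext fun s => g_deriv hp s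
  rw [this]
  exact continuous_const.mul (abs_rpow_continuous (by linarith))

theorem g_mono {p : ℝ} (hp : 2 < p) : Monotone (g p) := by
  apply monotone_of_deriv_nonneg fun s => (g_hasDerivAt hp s).differentiableAt
  intro s
  rw [g_deriv hp]
  exact mul_nonneg (by linarith) (Real.rpow_nonneg (abs_nonneg _) _)

theorem X_nonneg {p : ℝ} (hp : 2 < p) (a b : ℝ) : 0 ≤ (g p a - g p b) * (a - b) := by
  rcases le_total a b with h | h
  · exact mul_nonneg_of_nonpos_of_nonpos (sub_nonpos.2 (g_mono hp h)) (sub_nonpos.2 h)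
  · exact mul_nonneg (sub_nonneg.2 (g_mono hp h)) (sub_nonneg.2 h)

theorem real_rpow_add_le {a b c : ℝ} (ha : 0 ≤ a) (hb : 0 ≤ b) (hc : 1 ≤ c) :
    (a + b) ^ c ≤ (2 : ℝ) ^ (c - 1) * (a ^ c + b ^ c) := by
  have := NNReal.rpow_add_le_mul_rpow_add_rpow ⟨a, ha⟩ ⟨b, hb⟩ hc
  exact_mod_cast this

theorem X_ge_aux {p : ℝ} (hp : 2 < p) {a b : ℝ} (h : b ≤ a) (ha : 0 ≤ a) :
    (2 : ℝ) ^ (2 - p) * (a - b) ^ (p - 1) ≤ g p a - g p b := by
  rcases le_total 0 b with hb | hb
  · -- both nonnegative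
    have h1 : (a - b) ^ (p - 1) + b ^ (p - 1) ≤ a ^ (p - 1) := by
      have := Real.add_rpow_le_rpow_add (sub_nonneg.2 h) hb (by linarith : 1 ≤ p - 1)
      simpa using this
    rw [g_of_nonneg hp ha, g_of_nonneg hp hb]
    have h2 : (2 : ℝ) ^ (2 - p) ≤ 1 := Real.rpow_le_one_of_one_le_of_nonpos (by norm_num)
      (by linarith)
    have h3 : 0 ≤ (a - b) ^ (p - 1) := Real.rpow_nonneg (sub_nonneg.2 h) _
    nlinarith
  · -- opposite signs
    have hb' : 0 ≤ -b := by linarith
    have h1 := real_rpow_add_le ha hb' (by linarith : 1 ≤ p - 1)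
    have h2 : g p b = -(-b) ^ (p - 1) := by
      have := g_of_nonneg hp hb'
      rw [g_neg] at this
      linarith
    rw [g_of_nonneg hp ha, h2]
    have h3 : (2 : ℝ) ^ (2 - p) * (2 : ℝ) ^ (p - 1 - 1) = 1 := by
      rw [← Real.rpow_add (by norm_num), show 2 - p + (p - 1 - 1) = 0 by ring, Real.rpow_zero]
    have h4 : (0 : ℝ) < (2 : ℝ) ^ (2 - p) := by positivity
    have h5 := mul_le_mul_of_nonneg_left h1 h4.le
    rw [← mul_assoc, h3, one_mul] at h5
    have h6 : a - b = a + -b := by ring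
    rw [h6]
    linarith

/-- strong monotonicity -/
theorem X_ge {p : ℝ} (hp : 2 < p) (a b : ℝ) :
    (2 : ℝ) ^ (2 - p) * |a - b| ^ p ≤ (g p a - g p b) * (a - b) := by
  have main : ∀ a b : ℝ, b ≤ a →
      (2 : ℝ) ^ (2 - p) * (a - b) ^ (p - 1) ≤ g p a - g p b := by
    intro a b h
    rcases le_total 0 a with ha | ha
    · exact X_ge_aux hp h ha
    · have h1 := X_ge_aux hp (a := -b) (b := -a) (by linarith) (by linarith)
      rw [g_neg, g_neg] at h1
      have h2 : -b - -a = a - b := by ring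
      rw [h2] at h1
      linarith
  have key : ∀ a b : ℝ, b ≤ a →
      (2 : ℝ) ^ (2 - p) * |a - b| ^ p ≤ (g p a - g p b) * (a - b) := by
    intro a b h
    rcases h.eq_or_lt with h' | h'
    · rw [h']
      simp [Real.zero_rpow (by linarith : p ≠ 0)]
    · have h1 : 0 < a - b := sub_pos.2 h'
      have h2 := mul_le_mul_of_nonneg_right (main a b h) h1.le
      have h3 : (a - b) ^ (p - 1) * (a - b) = (a - b) ^ p := by
        rw [← Real.rpow_add_one h1.ne']
        congr 1
        ring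
      rw [mul_assoc, h3] at h2
      rwa [abs_of_pos h1]
  rcases le_total a b with h | h
  · have := key b a h
    rw [abs_sub_comm, show (g p a - g p b) * (a - b) = (g p b - g p a) * (b - a) by ring]
    exact this
  · exact key a b h

theorem cq_pos {p : ℝ} (hp : 2 < p) : 0 < cq p := by
  rw [cq]
  exact div_pos (by linarith) (by linarith)

theorem holder_conj {p : ℝ} (hp : 2 < p) : (cq p).HolderConjugate p := by
  rw [cq]
  exact (Real.HolderConjugate.conjExponent (by linarith : 1 < p)).symm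

/-- Young's inequality, first form -/
theorem young_g {p : ℝ} (hp : 2 < p) (a b : ℝ) :
    g p a * b ≤ |a| ^ p / cq p + |b| ^ p / p := by
  have h1 := Real.young_inequality (g p a) b (holder_conj hp)
  have h2 : |g p a| ^ cq p = |a| ^ p := by
    rw [abs_g hp, ← Real.rpow_mul (abs_nonneg a), cq]
    congr 1
    have : p - 1 ≠ 0 := by linarith
    field_simp
  rwa [h2] at h1

/-- convexity of `|s|^p` -/
theorem rpow_sub_le {p : ℝ} (hp : 2 < p) (a b : ℝ) :
    |a| ^ p - |b| ^ p ≤ p * (g p a * (a - b)) := by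
  have h1 := young_g hp a b
  have h2 := g_mul_self hp a
  have h3 : |a| ^ p / cq p = |a| ^ p - |a| ^ p / p := by
    rw [cq]
    have : p - 1 ≠ 0 := by linarith
    have : p ≠ 0 := by linarith
    field_simp
  have hp0 : 0 < p := by linarith
  have h4 : |a| ^ p / p - |b| ^ p / p ≤ g p a * (a - b) := by
    rw [mul_sub, h2]
    linarith
  have h5 := mul_le_mul_of_nonneg_left h4 hp0.le
  have h6 : p * (|a| ^ p / p - |b| ^ p / p) = |a| ^ p - |b| ^ p := by
    field_simp
  rwa [h6] at h5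

end Pool.Agent.H25.HX
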