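import Pool.Agent.H25.HX.Sob
import Pool.Agent.H25.HX.RealG

/-! # One step of the implicit scheme: tools -/

set_option autoImplicit false

open MeasureTheory Filter Topology
open scoped RealInnerProductSpace

namespace Pool.Agent.H25.HX

variable {N : ℕ} {Ω : Set (E N)}

section

variable {X : Type*} [MeasurableSpace X] {μ : Measure X}

/-- completeness of `L²` in terms of integrals -/
theorem L2_complete {F : Type*} [NormedAddCommGroup F] [CompleteSpace F] {a : ℕ → X → F}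
    (ha : ∀ n, MemLp (a n) 2 μ)
    (h : ∀ ε : ℝ, 0 < ε → ∃ n0 : ℕ, ∀ n ≥ n0, ∀ m ≥ n0, ∫ x, ‖a n x - a m x‖ ^ 2 ∂μ ≤ ε) :
    ∃ b : X → F, MemLp b 2 μ ∧ Tendsto (fun n => ∫ x, ‖b x - a n x‖ ^ 2 ∂μ) atTop (𝓝 0) := by
  have hc : CauchySeq fun n => (ha n).toLp (a n) := by
    rw [Metric.cauchySeq_iff]
    intro ε hε
    obtain ⟨n0, h0⟩ := h ((ε / 2) ^ 2) (by positivity)
    refine ⟨n0, fun n hn m hm => ?_⟩
    rw [dist_eq_norm, ← MemLp.toLp_sub]
    have h1 := toLp_norm_sq ((ha n).sub (ha m))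
    have h2 := h0 n hn m hm
    simp only [Pi.sub_apply] at h1
    rw [← h1] at h2
    have h3 := abs_le_of_sq_le_sq h2 (by positivity)
    rw [abs_of_nonneg (norm_nonneg _)] at h3
    linarith
  obtain ⟨L, hL⟩ := cauchySeq_tendsto_of_complete hc
  refine ⟨L, Lp.memLp L, ?_⟩
  have h1 : ∀ n, ∫ x, ‖L x - a n x‖ ^ 2 ∂μ = ‖L - (ha n).toLp (a n)‖ ^ 2 := by
    intro n
    have h2 := toLp_norm_sq ((Lp.memLp L).sub (ha n))
    rw [MemLp.toLp_sub (Lp.memLp L) (ha n), Lp.toLp_coeFn L (Lp.memLp L)] at h2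
    simp only [Pi.sub_apply] at h2
    exact h2.symm
  simp only [h1]
  have h2 : Tendsto (fun n => L - (ha n).toLp (a n)) atTop (𝓝 (L - L)) :=
    tendsto_const_nhds.sub hL
  have h3 := (h2.norm).pow 2
  simpa using h3

/-- Fatou's lemma for integrals of nonnegative functions -/
theorem fatou_real {G : X → ℝ} {F : ℕ → X → ℝ} (hF : ∀ n, Integrable (F n) μ)
    (h0 : ∀ n x, 0 ≤ F n x) (hG : AEStronglyMeasurable G μ)
    (hlim : ∀ᵐ x ∂μ, Tendsto (fun n => F n x) atTop (𝓝 (G x))) {c : ℝ}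
    (hc : ∀ n, ∫ x, F n x ∂μ ≤ c) : Integrable G μ ∧ ∫ x, G x ∂μ ≤ c := by
  have hG0 : ∀ᵐ x ∂μ, 0 ≤ G x := by
    filter_upwards [hlim] with x hx
    exact ge_of_tendsto' hx fun n => h0 n x
  have hc0 : 0 ≤ c := (integral_nonneg (h0 0)).trans (hc 0)
  have h1 : ∫⁻ x, ENNReal.ofReal (G x) ∂μ ≤ ENNReal.ofReal c := by
    calc ∫⁻ x, ENNReal.ofReal (G x) ∂μ
        = ∫⁻ x, liminf (fun n => ENNReal.ofReal (F n x)) atTop ∂μ := by
          apply lintegral_congr_ae
          filter_upwards [hlim] with x hx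
          exact ((ENNReal.continuous_ofReal.tendsto _).comp hx).liminf_eq.symm
      _ ≤ liminf (fun n => ∫⁻ x, ENNReal.ofReal (F n x) ∂μ) atTop :=
          lintegral_liminf_le' fun n => (hF n).1.aemeasurable.ennreal_ofReal
      _ ≤ ENNReal.ofReal c := by
          refine liminf_le_of_frequently_le' (Frequently.of_forall fun n => ?_)
          rw [← ofReal_integral_eq_lintegral_ofReal (hF n) (ae_of_all _ (h0 n))]
          exact ENNReal.ofReal_le_ofReal (hc n)
  have hGi : Integrable G μ := by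
    refine ⟨hG, ?_⟩
    rw [hasFiniteIntegral_iff_ofReal hG0]
    exact h1.trans_lt ENNReal.ofReal_lt_top
  refine ⟨hGi, ?_⟩
  rw [← ofReal_integral_eq_lintegral_ofReal hGi hG0] at h1
  exact (ENNReal.ofReal_le_ofReal_iff hc0).1 h1

end

end Pool.Agent.H25.HX
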