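import Pool.Agent.H25.HX.ExistA

/-! # One step of the implicit scheme: minimisation -/

set_option autoImplicit false

open MeasureTheory Filter Topology
open scoped RealInnerProductSpace

namespace Pool.Agent.H25.HX

variable {N : ℕ} {Ω : Set (E N)}

/-- admissible pairs -/
def Adm (Ω : Set (E N)) (p : ℝ) (v : E N → ℝ) (V : E N → E N) : Prop :=
  H10 Ω v V ∧ Integrable (fun x => |v x| ^ p) volume

/-- the functional -/
noncomputable def JJ (p c h : ℝ) (R v : E N → ℝ) (V : E N → E N) : ℝ :=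
  1 / 2 * (∫ x, v x ^ 2) + c / p * (∫ x, |v x| ^ p) + h ^ 2 / 2 * (∫ x, ‖V x‖ ^ 2) -
    ∫ x, R x * v x

theorem sq_int {v : E N → ℝ} (hv : MemLp v 2 volume) : Integrable (fun x => v x ^ 2) volume :=
  (sq_norm_integrable hv).congr (ae_of_all _ fun x => by simp [Real.norm_eq_abs, sq_abs])

theorem mul_int {v w : E N → ℝ} (hv : MemLp v 2 volume) (hw : MemLp w 2 volume) :
    Integrable (fun x => v x * w x) volume := hv.integrable_mul hw

theorem int_lin3 {f g k : E N → ℝ} (hf : Integrable f volume) (hg : Integrable g volume)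
    (hk : Integrable k volume) (a b c : ℝ) :
    ∫ x, (a * f x + b * g x - c * k x) =
      a * (∫ x, f x) + b * (∫ x, g x) - c * ∫ x, k x := by
  have h1 : Integrable (fun x => a * f x + b * g x) volume :=
    (hf.const_mul a).add (hg.const_mul b)
  rw [integral_sub h1 (hk.const_mul c), integral_add (hf.const_mul a) (hg.const_mul b),
    integral_const_mul, integral_const_mul, integral_const_mul]

theorem Adm.zero {p : ℝ} (hp : 2 < p) : Adm Ω p (fun _ => 0) (fun _ => 0) := by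
  refine ⟨H10.zero, ?_⟩
  simp [Real.zero_rpow (by linarith : p ≠ 0)]

theorem rpow_half_le {p : ℝ} (hp : 2 < p) (a b : ℝ) :
    |(a + b) / 2| ^ p ≤ (|a| ^ p + |b| ^ p) / 2 := by
  have h1 := (convexOn_rpow (by linarith : 1 ≤ p)).2 (abs_nonneg a : |a| ∈ Set.Ici 0)
    (abs_nonneg b : |b| ∈ Set.Ici 0) (by norm_num : (0 : ℝ) ≤ 1 / 2)
    (by norm_num : (0 : ℝ) ≤ 1 / 2) (by norm_num)
  simp only [smul_eq_mul] at h1
  have h2 : |(a + b) / 2| ≤ 1 / 2 * |a| + 1 / 2 * |b| := by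
    rw [abs_div, abs_two]
    have := abs_add_le a b
    linarith
  have h3 := Real.rpow_le_rpow (abs_nonneg _) h2 (by linarith : 0 ≤ p)
  linarith

theorem meas_abs_rpow {p : ℝ} (hp : 0 ≤ p) {v : E N → ℝ} (hv : AEStronglyMeasurable v volume) :
    AEStronglyMeasurable (fun x => |v x| ^ p) volume :=
  (abs_rpow_continuous hp).comp_aestronglyMeasurable hv

theorem Adm.mid {p : ℝ} (hp : 2 < p) {v w : E N → ℝ} {V W : E N → E N} (hv : Adm Ω p v V)
    (hw : Adm Ω p w W) :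
    Adm Ω p (fun x => (1 / 2 : ℝ) * (v x + w x)) (fun x => (1 / 2 : ℝ) • (V x + W x)) := by
  have h1 := (hv.1.add hw.1).smul (1 / 2)
  refine ⟨h1, ?_⟩
  refine Integrable.mono' ((hv.2.add hw.2).div_const 2)
    (meas_abs_rpow (by linarith) h1.1.1) (ae_of_all _ fun x => ?_)
  rw [Real.norm_of_nonneg (Real.rpow_nonneg (abs_nonneg _) _)]
  have := rpow_half_le hp (v x) (w x)
  simp only [Pi.add_apply]
  rw [show (1 / 2 : ℝ) * (v x + w x) = (v x + w x) / 2 by ring]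
  exact this

theorem norm_sq_mid {F : Type*} [NormedAddCommGroup F] [InnerProductSpace ℝ F] (a b : F) :
    ‖(1 / 2 : ℝ) • (a + b)‖ ^ 2 = 1 / 2 * ‖a‖ ^ 2 + 1 / 2 * ‖b‖ ^ 2 - 1 / 4 * ‖a - b‖ ^ 2 := by
  rw [norm_smul, mul_pow]
  have h1 := norm_add_sq_real a b
  have h2 := norm_sub_sq_real a b
  rw [h1, h2]
  norm_num
  ring

theorem JJ_mid {p c h : ℝ} (hp : 2 < p) (hc : 0 ≤ c) {R v w : E N → ℝ} {V W : E N → E N}
    (hR : MemLp R 2 volume) (hv : Adm Ω p v V) (hw : Adm Ω p w W) :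
    JJ p c h R (fun x => (1 / 2 : ℝ) * (v x + w x)) (fun x => (1 / 2 : ℝ) • (V x + W x)) ≤
      1 / 2 * JJ p c h R v V + 1 / 2 * JJ p c h R w W -
        1 / 8 * (∫ x, ‖v x - w x‖ ^ 2) - h ^ 2 / 8 * (∫ x, ‖V x - W x‖ ^ 2) := by
  have i1 := sq_norm_integrable hv.1.1
  have i2 := sq_norm_integrable hw.1.1
  have i3 := sq_norm_integrable (hv.1.1.sub hw.1.1)
  have j1 := sq_norm_integrable hv.1.2.1
  have j2 := sq_norm_integrable hw.1.2.1
  have j3 := sq_norm_integrable (hv.1.2.1.sub hw.1.2.1)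
  simp only [Pi.sub_apply] at i3 j3
  have e0 : ∀ f : E N → ℝ, ∫ x, f x ^ 2 = ∫ x, ‖f x‖ ^ 2 := fun f =>
    integral_congr_ae (ae_of_all _ fun x => by simp [Real.norm_eq_abs, sq_abs])
  have e1 : ∫ x, ((1 / 2 : ℝ) * (v x + w x)) ^ 2 =
      1 / 2 * (∫ x, v x ^ 2) + 1 / 2 * (∫ x, w x ^ 2) - 1 / 4 * (∫ x, ‖v x - w x‖ ^ 2) := by
    rw [e0, e0 v, e0 w, ← int_lin3 i1 i2 i3]
    refine integral_congr_ae (ae_of_all _ fun x => ?_)
    exact norm_sq_mid (v x) (w x)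
  have e2 : ∫ x, ‖(1 / 2 : ℝ) • (V x + W x)‖ ^ 2 =
      1 / 2 * (∫ x, ‖V x‖ ^ 2) + 1 / 2 * (∫ x, ‖W x‖ ^ 2) - 1 / 4 * (∫ x, ‖V x - W x‖ ^ 2) := by
    rw [← int_lin3 j1 j2 j3]
    refine integral_congr_ae (ae_of_all _ fun x => ?_)
    exact norm_sq_mid (V x) (W x)
  have e3 : ∫ x, |(1 / 2 : ℝ) * (v x + w x)| ^ p ≤
      1 / 2 * (∫ x, |v x| ^ p) + 1 / 2 * (∫ x, |w x| ^ p) := by
    rw [← integral_const_mul, ← integral_const_mul,
      ← integral_add (hv.2.const_mul _) (hw.2.const_mul _)]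
    apply integral_mono (hv.mid hp hw).2 ((hv.2.const_mul _).add (hw.2.const_mul _))
    intro x
    have := rpow_half_le hp (v x) (w x)
    simp only [Pi.add_apply]
    rw [show (1 / 2 : ℝ) * (v x + w x) = (v x + w x) / 2 by ring]
    linarith
  have e4 : ∫ x, R x * ((1 / 2 : ℝ) * (v x + w x)) =
      1 / 2 * (∫ x, R x * v x) + 1 / 2 * (∫ x, R x * w x) := by
    rw [← integral_const_mul, ← integral_const_mul,
      ← integral_add ((mul_int hR hv.1.1).const_mul _) ((mul_int hR hw.1.1).const_mul _)]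
    refine integral_congr_ae (ae_of_all _ fun x => ?_)
    simp only
    ring
  have e5 : c / p * (∫ x, |(1 / 2 : ℝ) * (v x + w x)| ^ p) ≤
      c / p * (1 / 2 * (∫ x, |v x| ^ p) + 1 / 2 * (∫ x, |w x| ^ p)) :=
    mul_le_mul_of_nonneg_left e3 (div_nonneg hc (by linarith))
  simp only [JJ]
  rw [e1, e2, e4]
  nlinarith

theorem JJ_lower {p c h : ℝ} (hp : 2 < p) (hc : 0 ≤ c) {R v : E N → ℝ} {V : E N → E N}
    (hR : MemLp R 2 volume) (hv : Adm Ω p v V) :
    -(1 / 2 * ∫ x, R x ^ 2) ≤ JJ p c h R v V := by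
  have h1 : ∫ x, R x * v x ≤ ∫ x, (1 / 2 * R x ^ 2 + 1 / 2 * v x ^ 2) := by
    apply integral_mono (mul_int hR hv.1.1)
      (((sq_int hR).const_mul _).add ((sq_int hv.1.1).const_mul _))
    intro x
    simp only [Pi.add_apply]
    nlinarith [sq_nonneg (R x - v x)]
  rw [integral_add ((sq_int hR).const_mul _) ((sq_int hv.1.1).const_mul _), integral_const_mul,
    integral_const_mul] at h1
  have h2 : 0 ≤ c / p * (∫ x, |v x| ^ p) :=
    mul_nonneg (div_nonneg hc (by linarith))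
      (integral_nonneg fun x => Real.rpow_nonneg (abs_nonneg _) _)
  have h3 : 0 ≤ h ^ 2 / 2 * (∫ x, ‖V x‖ ^ 2) :=
    mul_nonneg (by positivity) (integral_nonneg fun x => by positivity)
  simp only [JJ]
  linarith

/-- existence of a minimiser -/
theorem JJ_min {p c h : ℝ} (hp : 2 < p) (hc : 0 < c) (hh : 0 < h) {R : E N → ℝ}
    (hR : MemLp R 2 volume) : ∃ (v : E N → ℝ) (V : E N → E N), Adm Ω p v V ∧
      ∀ (w : E N → ℝ) (W : E N → E N), Adm Ω p w W → JJ p c h R v V ≤ JJ p c h R w W := by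
  set S : Set ℝ := {t | ∃ (w : E N → ℝ) (W : E N → E N), Adm Ω p w W ∧ t = JJ p c h R w W}
    with hS
  have hne : S.Nonempty := ⟨_, _, _, Adm.zero hp, rfl⟩
  have hbd : BddBelow S := by
    refine ⟨-(1 / 2 * ∫ x, R x ^ 2), ?_⟩
    rintro t ⟨w, W, hw, rfl⟩
    exact JJ_lower hp hc.le hR hw
  set m := sInf S with hm
  have hmle : ∀ (w : E N → ℝ) (W : E N → E N), Adm Ω p w W → m ≤ JJ p c h R w W :=
    fun w W hw => csInf_le hbd ⟨w, W, hw, rfl⟩
  have hseq : ∀ n : ℕ, ∃ (w : E N → ℝ) (W : E N → E N), Adm Ω p w W ∧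
      JJ p c h R w W < m + 1 / ((n : ℝ) + 1) := by
    intro n
    have h1 : m < m + 1 / ((n : ℝ) + 1) := by
      have : 0 < 1 / ((n : ℝ) + 1) := by positivity
      linarith
    obtain ⟨t, ⟨w, W, hw, rfl⟩, ht⟩ := exists_lt_of_csInf_lt hne h1
    exact ⟨w, W, hw, ht⟩
  choose w W hw hJ using hseq
  have hpar : ∀ n k : ℕ, (∫ x, ‖w n x - w k x‖ ^ 2) + h ^ 2 * (∫ x, ‖W n x - W k x‖ ^ 2) ≤
      4 * (1 / ((n : ℝ) + 1) + 1 / ((k : ℝ) + 1)) := by
    intro n k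
    have h1 := JJ_mid (h := h) hp hc.le hR (hw n) (hw k)
    have h2 := hmle _ _ ((hw n).mid hp (hw k))
    have h3 := hJ n
    have h4 := hJ k
    linarith
  have hcau : ∀ ε : ℝ, 0 < ε → ∃ n0 : ℕ, ∀ n ≥ n0, ∀ k ≥ n0,
      4 * (1 / ((n : ℝ) + 1) + 1 / ((k : ℝ) + 1)) ≤ ε := by
    intro ε hε
    obtain ⟨n0, h0⟩ := exists_nat_one_div_lt (show (0 : ℝ) < ε / 8 by positivity)
    refine ⟨n0, fun n hn k hk => ?_⟩
    have h1 : ∀ j : ℕ, n0 ≤ j → 1 / ((j : ℝ) + 1) ≤ 1 / ((n0 : ℝ) + 1) := fun j hj =>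
      Nat.one_div_le_one_div hj
    have h2 := h1 n hn
    have h3 := h1 k hk
    linarith
  obtain ⟨v, hv, hvl⟩ := L2_complete (fun n => (hw n).1.1) (fun ε hε => by
    obtain ⟨n0, h0⟩ := hcau ε hε
    refine ⟨n0, fun n hn k hk => ?_⟩
    have h1 := hpar n k
    have h2 : 0 ≤ h ^ 2 * (∫ x, ‖W n x - W k x‖ ^ 2) :=
      mul_nonneg (sq_nonneg _) (integral_nonneg fun x => by positivity)
    linarith [h0 n hn k hk])
  obtain ⟨V, hV, hVl⟩ := L2_complete (fun n => (hw n).1.2.1) (fun ε hε => by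
    obtain ⟨n0, h0⟩ := hcau (h ^ 2 * ε) (by positivity)
    refine ⟨n0, fun n hn k hk => ?_⟩
    have h1 := hpar n k
    have h2 : 0 ≤ (∫ x, ‖w n x - w k x‖ ^ 2) := integral_nonneg fun x => by positivity
    have h3 : h ^ 2 * (∫ x, ‖W n x - W k x‖ ^ 2) ≤ h ^ 2 * ε := by linarith [h0 n hn k hk]
    exact le_of_mul_le_mul_left h3 (by positivity))
  have hH : H10 Ω v V := by
    apply H10.closed hv hV
    intro δ hδ
    have h4 := (hvl.eventually (ge_mem_nhds hδ)).and (hVl.eventually (ge_mem_nhds hδ))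
    obtain ⟨n, h5, h6⟩ := h4.exists
    refine ⟨w n, W n, (hw n).1, ?_, h6⟩
    simpa [Real.norm_eq_abs, sq_abs] using h5
  obtain ⟨ns, hns, hae⟩ := ae_subseq hv (fun n => (hw n).1.1) hvl
  have e0 : ∀ f : E N → ℝ, ∫ x, f x ^ 2 = ∫ x, ⟪f x, f x⟫ := fun f =>
    integral_congr_ae (ae_of_all _ fun x => by simp [sq])
  have l1 : Tendsto (fun n => ∫ x, w n x ^ 2) atTop (𝓝 (∫ x, v x ^ 2)) := by
    simp only [e0]
    exact tendsto_int_inner hv hv (fun n => (hw n).1.1) (fun n => (hw n).1.1) hvl hvl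
  have l2 : Tendsto (fun n => ∫ x, ‖W n x‖ ^ 2) atTop (𝓝 (∫ x, ‖V x‖ ^ 2)) := by
    have := tendsto_int_inner hV hV (fun n => (hw n).1.2.1) (fun n => (hw n).1.2.1) hVl hVl
    simpa only [real_inner_self_eq_norm_sq] using this
  have l3 : Tendsto (fun n => ∫ x, R x * w n x) atTop (𝓝 (∫ x, R x * v x)) := by
    have := tendsto_int_inner hR hv (b := fun _ => R) (fun _ => hR) (fun n => (hw n).1.1)
      (by simp) hvl
    have e1 : ∀ f : E N → ℝ, ∫ x, ⟪R x, f x⟫ = ∫ x, R x * f x := fun f =>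
      integral_congr_ae (ae_of_all _ fun x => by simp [mul_comm])
    simpa only [e1] using this
  have hcp : 0 < c / p := div_pos hc (by linarith)
  -- the limit of the `p`-integrals is controlled
  set rest : ℝ := 1 / 2 * (∫ x, v x ^ 2) + h ^ 2 / 2 * (∫ x, ‖V x‖ ^ 2) - ∫ x, R x * v x
    with hrest
  have l4 : Tendsto (fun n : ℕ => (m + 1 / ((n : ℝ) + 1)) - (1 / 2 * (∫ x, w n x ^ 2) +
      h ^ 2 / 2 * (∫ x, ‖W n x‖ ^ 2) - ∫ x, R x * w n x)) atTop (𝓝 (m + 0 - rest)) := by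
    refine (tendsto_const_nhds.add tendsto_one_div_add_atTop_nhds_zero_nat).sub ?_
    exact ((l1.const_mul _).add (l2.const_mul _)).sub l3
  have hfat : ∀ δ : ℝ, 0 < δ → Integrable (fun x => |v x| ^ p) volume ∧
      ∫ x, |v x| ^ p ≤ (m - rest + δ) / (c / p) := by
    intro δ hδ
    have h1 : ∀ᶠ n : ℕ in atTop, (m + 1 / ((n : ℝ) + 1)) - (1 / 2 * (∫ x, w n x ^ 2) +
      h ^ 2 / 2 * (∫ x, ‖W n x‖ ^ 2) - ∫ x, R x * w n x) ≤ m - rest + δ := by
      apply l4.eventually (ge_mem_nhds _)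
      linarith
    obtain ⟨n0, h0⟩ := eventually_atTop.1 h1
    have hae' : ∀ᵐ x, Tendsto (fun i => |w (ns (i + n0)) x| ^ p) atTop (𝓝 (|v x| ^ p)) := by
      filter_upwards [hae] with x hx
      have h2 : Tendsto (fun i => w (ns (i + n0)) x) atTop (𝓝 (v x)) :=
        hx.comp (tendsto_add_atTop_nat n0)
      exact ((abs_rpow_continuous (by linarith : 0 ≤ p)).tendsto (v x)).comp h2
    refine fatou_real (F := fun i x => |w (ns (i + n0)) x| ^ p) (fun i => (hw _).2)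
      (fun i x => Real.rpow_nonneg (abs_nonneg _) _) (meas_abs_rpow (by linarith) hv.1) hae' ?_
    intro i
    rw [le_div_iff₀ hcp]
    have h2 := h0 (ns (i + n0)) ((by omega : n0 ≤ i + n0).trans (hns.id_le _))
    have h3 := hJ (ns (i + n0))
    simp only [JJ] at h3
    linarith
  have hA : Adm Ω p v V := ⟨hH, (hfat 1 one_pos).1⟩
  refine ⟨v, V, hA, fun w' W' hw' => ?_⟩
  refine le_trans ?_ (hmle w' W' hw')
  apply le_of_forall_pos_le_add
  intro δ hδ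
  have h1 := (hfat δ hδ).2
  rw [le_div_iff₀ hcp] at h1
  simp only [JJ]
  linarith

end Pool.Agent.H25.HX
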