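import Pool.Agent.H25.HX.ExistC

/-! # Translation estimate for `H¹₀` functions -/

set_option autoImplicit false

open MeasureTheory Filter Topology
open scoped RealInnerProductSpace

namespace Pool.Agent.H25.HX

variable {N : ℕ} {Ω : Set (E N)}

theorem sq_interval_le {f : ℝ → ℝ} (hf : Continuous f) :
    (∫ t in (0 : ℝ)..1, f t) ^ 2 ≤ ∫ t in (0 : ℝ)..1, f t ^ 2 := by
  set m := ∫ t in (0 : ℝ)..1, f t with hm
  have h1 : 0 ≤ ∫ t in (0 : ℝ)..1, (f t - m) ^ 2 :=
    intervalIntegral.integral_nonneg zero_le_one fun t _ => sq_nonneg _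
  have i1 : IntervalIntegrable (fun t => f t ^ 2) volume 0 1 := (hf.pow 2).intervalIntegrable _ _
  have i2 : IntervalIntegrable (fun t => 2 * m * f t) volume 0 1 :=
    (continuous_const.mul hf).intervalIntegrable _ _
  have i3 : IntervalIntegrable (fun _ : ℝ => m ^ 2) volume 0 1 :=
    continuous_const.intervalIntegrable _ _
  have h2 : ∫ t in (0 : ℝ)..1, (f t - m) ^ 2 =
      (∫ t in (0 : ℝ)..1, f t ^ 2) - m ^ 2 := by
    have e1 : ∀ t, (f t - m) ^ 2 = f t ^ 2 - 2 * m * f t + m ^ 2 := fun t => by ring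
    simp only [e1]
    rw [intervalIntegral.integral_add (i1.sub i2) i3, intervalIntegral.integral_sub i1 i2,
      intervalIntegral.integral_const_mul, ← hm]
    simp
    ring
  linarith

theorem trans_tst {φ : E N → ℝ} (h : ContDiff ℝ 1 φ) (hc : HasCompactSupport φ) (y : E N) :
    ∫ x, (φ (x + y) - φ x) ^ 2 ≤ ‖y‖ ^ 2 * ∫ x, ‖gradient φ x‖ ^ 2 := by
  have hfc : Continuous (fderiv ℝ φ) := h.continuous_fderiv (by norm_num)
  have hdiff : Differentiable ℝ φ := h.differentiable (by norm_num)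
  -- pointwise estimate
  have hpt : ∀ x : E N, ENNReal.ofReal ((φ (x + y) - φ x) ^ 2) ≤
      ∫⁻ t in Set.Ioc (0 : ℝ) 1, ENNReal.ofReal ((fderiv ℝ φ (x + t • y) y) ^ 2) := by
    intro x
    have hd : ∀ t : ℝ, HasDerivAt (fun t : ℝ => φ (x + t • y)) (fderiv ℝ φ (x + t • y) y) t := by
      intro t
      have h1 : HasDerivAt (fun t : ℝ => x + t • y) y t := by
        simpa using ((hasDerivAt_id t).smul_const y).const_add x
      exact ((hdiff (x + t • y)).hasFDerivAt).comp_hasDerivAt t h1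
    have hcont : Continuous fun t : ℝ => fderiv ℝ φ (x + t • y) y := by
      refine Continuous.clm_apply (hfc.comp ?_) continuous_const
      fun_prop
    have h2 : ∫ t in (0 : ℝ)..1, fderiv ℝ φ (x + t • y) y = φ (x + y) - φ x := by
      rw [intervalIntegral.integral_eq_sub_of_hasDerivAt (fun t _ => hd t)
        (hcont.intervalIntegrable _ _)]
      simp
    have h3 := sq_interval_le hcont
    rw [h2] at h3
    refine (ENNReal.ofReal_le_ofReal h3).trans (le_of_eq ?_)
    rw [intervalIntegral.integral_of_le zero_le_one]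
    apply ofReal_integral_eq_lintegral_ofReal
    · exact ((hcont.pow 2).intervalIntegrable 0 1).1
    · exact ae_of_all _ fun t => sq_nonneg _
  have hmeas : Measurable (fun q : E N × ℝ =>
      ENNReal.ofReal ((fderiv ℝ φ (q.1 + q.2 • y) y) ^ 2)) := by
    have : Continuous fun q : E N × ℝ => (fderiv ℝ φ (q.1 + q.2 • y) y) ^ 2 := by
      refine (Continuous.clm_apply (hfc.comp ?_) continuous_const).pow 2
      fun_prop
    exact ENNReal.measurable_ofReal.comp this.measurable
  have iG : Integrable (fun x => (fderiv ℝ φ x y) ^ 2) volume := by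
    refine Continuous.integrable_of_hasCompactSupport
      ((Continuous.clm_apply hfc continuous_const).pow 2) ?_
    have h1 := HasCompactSupport.fderiv_apply (𝕜 := ℝ) hc y
    exact h1.comp_left (g := fun s : ℝ => s ^ 2) (by norm_num)
  have iG2 : Integrable (fun x => ‖gradient φ x‖ ^ 2) volume :=
    sq_norm_integrable ((Tst.grad_cont h).memLp_of_hasCompactSupport (Tst.grad_supp hc))
  have hG : ∫ x, (fderiv ℝ φ x y) ^ 2 ≤ ‖y‖ ^ 2 * ∫ x, ‖gradient φ x‖ ^ 2 := by
    rw [← integral_const_mul]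
    apply integral_mono iG (iG2.const_mul _)
    intro x
    simp only
    rw [← inner_gradient, ← mul_pow]
    have := abs_real_inner_le_norm (gradient φ x) y
    rw [← sq_abs]
    refine pow_le_pow_left₀ (abs_nonneg _) ?_ 2
    rw [mul_comm]
    exact this
  have key : ∫⁻ x, ENNReal.ofReal ((φ (x + y) - φ x) ^ 2) ≤
      ENNReal.ofReal (‖y‖ ^ 2 * ∫ x, ‖gradient φ x‖ ^ 2) := by
    calc ∫⁻ x, ENNReal.ofReal ((φ (x + y) - φ x) ^ 2)
        ≤ ∫⁻ x, ∫⁻ t in Set.Ioc (0 : ℝ) 1,
            ENNReal.ofReal ((fderiv ℝ φ (x + t • y) y) ^ 2) := lintegral_mono hpt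
      _ = ∫⁻ t in Set.Ioc (0 : ℝ) 1, ∫⁻ x,
            ENNReal.ofReal ((fderiv ℝ φ (x + t • y) y) ^ 2) :=
          lintegral_lintegral_swap hmeas.aemeasurable
      _ = ∫⁻ t in Set.Ioc (0 : ℝ) 1, ∫⁻ x, ENNReal.ofReal ((fderiv ℝ φ x y) ^ 2) := by
          refine lintegral_congr fun t => ?_
          exact lintegral_add_right_eq_self
            (fun x => ENNReal.ofReal ((fderiv ℝ φ x y) ^ 2)) (t • y)
      _ = ∫⁻ x, ENNReal.ofReal ((fderiv ℝ φ x y) ^ 2) := by simp
      _ = ENNReal.ofReal (∫ x, (fderiv ℝ φ x y) ^ 2) :=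
          (ofReal_integral_eq_lintegral_ofReal iG (ae_of_all _ fun x => sq_nonneg _)).symm
      _ ≤ _ := ENNReal.ofReal_le_ofReal hG
  have hi : Integrable (fun x => (φ (x + y) - φ x) ^ 2) volume := by
    have h1 : MemLp φ 2 volume := h.continuous.memLp_of_hasCompactSupport hc
    have h2 : MemLp (fun x => φ (x + y)) 2 volume :=
      h1.comp_measurePreserving (measurePreserving_add_right volume y)
    exact sq_int (h2.sub h1)
  rw [← ofReal_integral_eq_lintegral_ofReal hi (ae_of_all _ fun x => sq_nonneg _)] at key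
  exact (ENNReal.ofReal_le_ofReal_iff (mul_nonneg (sq_nonneg _)
    (integral_nonneg fun x => by positivity))).1 key

/-- translation estimate -/
theorem H10.trans {w : E N → ℝ} {W : E N → E N} (h : H10 Ω w W) (y : E N) :
    ∫ x, (w (x + y) - w x) ^ 2 ≤ ‖y‖ ^ 2 * ∫ x, ‖W x‖ ^ 2 := by
  obtain ⟨φ, t, c, d⟩ := h.seq
  have hs : ∀ {v : E N → ℝ}, MemLp v 2 volume → MemLp (fun x => v (x + y)) 2 volume :=
    fun hv => hv.comp_measurePreserving (measurePreserving_add_right volume y)
  have c' : Tendsto (fun n => ∫ x, ‖w (x + y) - φ n (x + y)‖ ^ 2) atTop (𝓝 0) := by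
    refine c.congr fun n => ?_
    exact (integral_add_right_eq_self (fun x => ‖w x - φ n x‖ ^ 2) y).symm
  have c2 : Tendsto (fun n => ∫ x, ‖(w (x + y) - w x) - (φ n (x + y) - φ n x)‖ ^ 2) atTop
      (𝓝 0) := by
    have h1 : ∀ n, ∫ x, ‖(w (x + y) - w x) - (φ n (x + y) - φ n x)‖ ^ 2 ≤
        2 * (∫ x, ‖w (x + y) - φ n (x + y)‖ ^ 2) + 2 * (∫ x, ‖w x - φ n x‖ ^ 2) := by
      intro n
      have h2 := int_sq_add ((hs h.1).sub (hs (t n).mem)) ((h.1.sub (t n).mem).neg)
      simp only [Pi.sub_apply, Pi.neg_apply, norm_neg] at h2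
      refine le_trans (le_of_eq (integral_congr_ae (ae_of_all _ fun x => ?_))) h2
      simp only
      congr 2
      ring
    refine squeeze_zero (fun n => integral_nonneg fun x => by positivity) h1 ?_
    simpa using (c'.const_mul 2).add (c.const_mul 2)
  have L := tendsto_int_inner ((hs h.1).sub h.1) ((hs h.1).sub h.1)
    (fun n => (hs (t n).mem).sub (t n).mem) (fun n => (hs (t n).mem).sub (t n).mem) c2 c2
  have R := (tendsto_int_inner h.2.1 h.2.1 (fun n => (t n).memG) (fun n => (t n).memG) d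
    d).const_mul (‖y‖ ^ 2)
  have e1 : ∀ v : E N → ℝ, ∫ x, (⟪v x, v x⟫ : ℝ) = ∫ x, v x ^ 2 := by
    intro v
    refine integral_congr_ae (ae_of_all _ fun x => ?_)
    simp only [RCLike.inner_apply, conj_trivial]
    ring
  simp only [e1, Pi.sub_apply] at L
  simp only [real_inner_self_eq_norm_sq] at R
  exact le_of_tendsto_of_tendsto' L R fun n => trans_tst (t n).1 (t n).2.1 y

end Pool.Agent.H25.HX
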