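import Pool.Agent.H25.HX.ImpA

/-! # Improved Sobolev inequality, level set estimate -/

set_option autoImplicit false

open MeasureTheory Filter Topology
open scoped RealInnerProductSpace

namespace Pool.Agent.H25.HX

variable {N : ℕ} {Ω : Set (E N)}

theorem level_est {w : E N → ℝ} {W : E N → E N} (h : H10 Ω w W) (hm : Measurable w)
    {l r : ℝ} (hl : 0 < l) (hr : 0 < r)
    (hav : ∀ x, ∫ y in Metric.ball (0 : E N) r, w (x + y) ≤
      l / 4 * (volume (Metric.ball (0 : E N) r)).toReal) :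
    volume {x | l ≤ w x} * ENNReal.ofReal (l ^ 2 / 2) ≤
      ENNReal.ofReal (r ^ 2 * ∫ x, ‖W x‖ ^ 2) := by
  set B := Metric.ball (0 : E N) r with hB
  have hV : volume B ≠ ⊤ := measure_ball_lt_top.ne
  have hV0 : volume B ≠ 0 := (Metric.measure_ball_pos volume _ hr).ne'
  set V := (volume B).toReal with hVd
  have hVpos : 0 < V := ENNReal.toReal_pos hV0 hV
  have : IsFiniteMeasure (volume.restrict B) := ⟨by
    rw [Measure.restrict_apply_univ]
    exact measure_ball_lt_top⟩
  have hDm : Measurable fun q : E N × E N => ENNReal.ofReal ((w q.1 - w (q.1 + q.2)) ^ 2) := by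
    refine ENNReal.measurable_ofReal.comp (Measurable.pow_const ?_ 2)
    exact (hm.comp measurable_fst).sub (hm.comp (measurable_fst.add measurable_snd))
  have hs : ∀ x : E N, MemLp (fun y => w (x + y)) 2 volume := fun x =>
    h.1.comp_measurePreserving (measurePreserving_add_left volume x)
  -- lower bound
  have hlow : ∀ x, l ≤ w x → ENNReal.ofReal (V * (l ^ 2 / 2)) ≤
      ∫⁻ y in B, ENNReal.ofReal ((w x - w (x + y)) ^ 2) := by
    intro x hx
    have m1 : MemLp (fun y => w (x + y)) 2 (volume.restrict B) := (hs x).restrict B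
    have i1 : Integrable (fun y => w (x + y)) (volume.restrict B) :=
      m1.integrable (by norm_num)
    have m2 : MemLp (fun y => w x - w (x + y)) 2 (volume.restrict B) :=
      (memLp_const (w x)).sub m1
    have i2 : Integrable (fun y => (w x - w (x + y)) ^ 2) (volume.restrict B) :=
      m2.integrable_sq
    rw [← ofReal_integral_eq_lintegral_ofReal i2 (ae_of_all _ fun y => sq_nonneg _)]
    apply ENNReal.ofReal_le_ofReal
    have i3 : Integrable (fun y => w x ^ 2 - 2 * w x * w (x + y)) (volume.restrict B) :=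
      (integrable_const _).sub (i1.const_mul _)
    have h1 : ∫ y in B, (w x ^ 2 - 2 * w x * w (x + y)) ≤
        ∫ y in B, (w x - w (x + y)) ^ 2 := by
      apply integral_mono i3 i2
      intro y
      simp only
      nlinarith [sq_nonneg (w (x + y))]
    rw [integral_sub (integrable_const _) (i1.const_mul _), integral_const_mul] at h1
    have h2 : ∫ _y in B, w x ^ 2 = V * w x ^ 2 := by
      simp [hVd, Measure.real]
    rw [h2] at h1
    have h3 := hav x
    have h4 : 0 < w x := hl.trans_le hx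
    have h5 : 2 * w x * ∫ y in B, w (x + y) ≤ 2 * w x * (l / 4 * V) :=
      mul_le_mul_of_nonneg_left h3 (by linarith)
    have h6 : V * (l ^ 2 / 2) ≤ V * w x ^ 2 - 2 * w x * (l / 4 * V) := by
      have e : V * w x ^ 2 - 2 * w x * (l / 4 * V) = V * (w x * (w x - l / 2)) := by ring
      rw [e]
      refine mul_le_mul_of_nonneg_left ?_ hVpos.le
      nlinarith
    linarith
  have hup : ∀ y ∈ B, ∫⁻ x, ENNReal.ofReal ((w x - w (x + y)) ^ 2) ≤
      ENNReal.ofReal (r ^ 2 * ∫ x, ‖W x‖ ^ 2) := by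
    intro y hy
    have hs' : MemLp (fun x => w (x + y)) 2 volume :=
      h.1.comp_measurePreserving (measurePreserving_add_right volume y)
    have i1 : Integrable (fun x => (w x - w (x + y)) ^ 2) volume := sq_int (h.1.sub hs')
    rw [← ofReal_integral_eq_lintegral_ofReal i1 (ae_of_all _ fun y => sq_nonneg _)]
    apply ENNReal.ofReal_le_ofReal
    have h1 := h.trans y
    have h2 : ∫ x, (w x - w (x + y)) ^ 2 = ∫ x, (w (x + y) - w x) ^ 2 :=
      integral_congr_ae (ae_of_all _ fun x => by ring)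
    rw [h2]
    refine h1.trans (mul_le_mul_of_nonneg_right ?_ (integral_nonneg fun x => by positivity))
    have h3 : ‖y‖ < r := by simpa [hB] using hy
    exact pow_le_pow_left₀ (norm_nonneg _) h3.le 2
  have hset : MeasurableSet {x | l ≤ w x} := measurableSet_le measurable_const hm
  have h1 : ENNReal.ofReal (V * (l ^ 2 / 2)) * volume {x | l ≤ w x} ≤
      volume B * ENNReal.ofReal (r ^ 2 * ∫ x, ‖W x‖ ^ 2) := by
    calc ENNReal.ofReal (V * (l ^ 2 / 2)) * volume {x | l ≤ w x}
        = ∫⁻ _x in {x | l ≤ w x}, ENNReal.ofReal (V * (l ^ 2 / 2)) := by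
          rw [setLIntegral_const]
      _ ≤ ∫⁻ x in {x | l ≤ w x}, ∫⁻ y in B, ENNReal.ofReal ((w x - w (x + y)) ^ 2) :=
          setLIntegral_mono' hset hlow
      _ ≤ ∫⁻ x, ∫⁻ y in B, ENNReal.ofReal ((w x - w (x + y)) ^ 2) :=
          setLIntegral_le_lintegral _ _
      _ = ∫⁻ y in B, ∫⁻ x, ENNReal.ofReal ((w x - w (x + y)) ^ 2) :=
          lintegral_lintegral_swap hDm.aemeasurable
      _ ≤ ∫⁻ _y in B, ENNReal.ofReal (r ^ 2 * ∫ x, ‖W x‖ ^ 2) :=
          setLIntegral_mono' measurableSet_ball hup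
      _ = volume B * ENNReal.ofReal (r ^ 2 * ∫ x, ‖W x‖ ^ 2) := by
          rw [setLIntegral_const, mul_comm]
  have h2 : ENNReal.ofReal (V * (l ^ 2 / 2)) = volume B * ENNReal.ofReal (l ^ 2 / 2) := by
    rw [ENNReal.ofReal_mul hVpos.le, hVd, ENNReal.ofReal_toReal hV]
  rw [h2, mul_assoc] at h1
  have h3 := (ENNReal.mul_le_mul_iff_right hV0 hV).1 h1
  rwa [mul_comm]

/-- smooth cutoff of the values -/
noncomputable def Ph (s : ℝ) : ℝ := Real.smoothTransition (s ^ 2 - 1)

theorem Ph_facts : ∃ K : ℝ, 0 < K ∧ ContDiff ℝ 1 Ph ∧ Ph 0 = 0 ∧ (∀ s, 0 ≤ Ph s) ∧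
    (∀ s, Ph s ≤ 1) ∧ (∀ s, |s| ≤ 1 → Ph s = 0) ∧ (∀ s, 2 ≤ |s| → Ph s = 1) ∧
    (∀ s, |deriv Ph s| ≤ K) ∧ (∀ s, |s| < 1 → deriv Ph s = 0) ∧
    (∀ s, 2 ≤ |s| → deriv Ph s = 0) := by
  have hc : ContDiff ℝ 1 Ph := by
    have h1 : ContDiff ℝ 1 fun s : ℝ => s ^ 2 - 1 := by fun_prop
    exact (Real.smoothTransition.contDiff (n := 1)).comp h1
  have h1 : ∀ s : ℝ, |s| ≤ 1 → Ph s = 0 := by
    intro s hs
    apply Real.smoothTransition.zero_of_nonpos
    have : s ^ 2 ≤ 1 := by
      rw [← sq_abs]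
      nlinarith [abs_nonneg s]
    linarith
  have h2 : ∀ s : ℝ, 3 / 2 < |s| → Ph s = 1 := by
    intro s hs
    apply Real.smoothTransition.one_of_one_le
    have : 2 ≤ s ^ 2 := by
      rw [← sq_abs]
      nlinarith [abs_nonneg s]
    linarith
  have h3 : ∀ s, |s| < 1 → deriv Ph s = 0 := by
    intro s hs
    have : Ph =ᶠ[𝓝 s] fun _ => 0 := by
      have h4 : ∀ᶠ t in 𝓝 s, |t| < 1 := (continuous_abs.tendsto s).eventually (gt_mem_nhds hs)
      filter_upwards [h4] with t ht
      exact h1 t ht.le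
    rw [this.deriv_eq]
    simp
  have h4 : ∀ s, 3 / 2 < |s| → deriv Ph s = 0 := by
    intro s hs
    have : Ph =ᶠ[𝓝 s] fun _ => 1 := by
      have h4 : ∀ᶠ t in 𝓝 s, 3 / 2 < |t| :=
        (continuous_abs.tendsto s).eventually (lt_mem_nhds hs)
      filter_upwards [h4] with t ht
      exact h2 t ht
    rw [this.deriv_eq]
    simp
  obtain ⟨K, hK⟩ := (isCompact_Icc (a := (-2 : ℝ)) (b := 2)).exists_bound_of_continuousOn
    (hc.continuous_deriv (by norm_num)).continuousOn
  refine ⟨|K| + 1, by positivity, hc, h1 0 (by simp), fun s => Real.smoothTransition.nonneg _,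
    fun s => Real.smoothTransition.le_one _, h1, fun s hs => h2 s (by linarith), ?_, h3,
    fun s hs => h4 s (by linarith)⟩
  intro s
  by_cases hs : |s| ≤ 2
  · have := hK s (abs_le.1 hs)
    rw [Real.norm_eq_abs] at this
    linarith [le_abs_self K]
  · rw [h4 s (by linarith [not_le.1 hs]), abs_zero]
    positivity

end Pool.Agent.H25.HX
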