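import Pool.Agent.H25.HX.SobE

/-! # Calculus of `H¹₀` pairs (collects `SobA` to `SobE`)

Statements: `Tst.h10`, `H10.zero/congr/add/smul/sub/sum/mono/closed/mul/comp/off/test/radial/
poincare/scale`, approximating sequences `H10.seq`, `H10.ofSeq`, limits `tendsto_int_inner`. -/
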