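import Pool.Agent.H25.HX.Base

/-! # `L²` limits, gradients of test functions -/

set_option autoImplicit false

open MeasureTheory Filter Topology
open scoped RealInnerProductSpace

namespace Pool.Agent.H25.HX

variable {N : ℕ} {Ω : Set (E N)}

section L2

variable {X : Type*} [MeasurableSpace X] {μ : Measure X} {F : Type*} [NormedAddCommGroup F]

theorem sq_norm_integrable {a : X → F} (ha : MemLp a 2 μ) :
    Integrable (fun x => ‖a x‖ ^ 2) μ := by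
  have := ha.integrable_norm_pow (by norm_num : (2 : ℕ) ≠ 0)
  simpa using this

theorem int_sq_add {a b : X → F} (ha : MemLp a 2 μ) (hb : MemLp b 2 μ) :
    ∫ x, ‖a x + b x‖ ^ 2 ∂μ ≤ 2 * ∫ x, ‖a x‖ ^ 2 ∂μ + 2 * ∫ x, ‖b x‖ ^ 2 ∂μ := by
  rw [← integral_const_mul, ← integral_const_mul, ← integral_add
    ((sq_norm_integrable ha).const_mul 2) ((sq_norm_integrable hb).const_mul 2)]
  apply integral_mono (sq_norm_integrable (ha.add hb))
    (((sq_norm_integrable ha).const_mul 2).add ((sq_norm_integrable hb).const_mul 2))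
  intro x
  have h1 : ‖a x + b x‖ ≤ ‖a x‖ + ‖b x‖ := norm_add_le _ _
  have h2 := norm_nonneg (a x + b x)
  simp only [Pi.add_apply]
  nlinarith [sq_nonneg (‖a x‖ - ‖b x‖), norm_nonneg (a x), norm_nonneg (b x)]

theorem int_sq_tri {a b c : X → F} (ha : MemLp a 2 μ) (hb : MemLp b 2 μ) (hc : MemLp c 2 μ) :
    ∫ x, ‖a x - c x‖ ^ 2 ∂μ ≤ 2 * ∫ x, ‖a x - b x‖ ^ 2 ∂μ + 2 * ∫ x, ‖b x - c x‖ ^ 2 ∂μ := by
  have := int_sq_add (ha.sub hb) (hb.sub hc)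
  simpa using this

theorem toLp_norm_sq {a : X → F} (ha : MemLp a 2 μ) :
    ‖ha.toLp a‖ ^ 2 = ∫ x, ‖a x‖ ^ 2 ∂μ := by
  rw [Lp.norm_toLp, ha.eLpNorm_eq_integral_rpow_norm (by norm_num) (by norm_num)]
  have h0 : 0 ≤ ∫ x, ‖a x‖ ^ (2 : ℝ) ∂μ := integral_nonneg fun x => by positivity
  rw [ENNReal.toReal_ofReal (by positivity)]
  simp only [ENNReal.toReal_ofNat]
  rw [← Real.rpow_natCast, ← Real.rpow_mul h0]
  norm_num

theorem toLp_tendsto {a : X → F} {b : ℕ → X → F} (ha : MemLp a 2 μ) (hb : ∀ n, MemLp (b n) 2 μ)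
    (h : Tendsto (fun n => ∫ x, ‖a x - b n x‖ ^ 2 ∂μ) atTop (𝓝 0)) :
    Tendsto (fun n => (hb n).toLp (b n)) atTop (𝓝 (ha.toLp a)) := by
  rw [tendsto_iff_norm_sub_tendsto_zero]
  have h1 : ∀ n, ‖(hb n).toLp (b n) - ha.toLp a‖ ^ 2 = ∫ x, ‖a x - b n x‖ ^ 2 ∂μ := by
    intro n
    rw [← norm_neg, neg_sub, ← MemLp.toLp_sub, toLp_norm_sq]
    simp
  have h2 : Tendsto (fun n => ‖(hb n).toLp (b n) - ha.toLp a‖ ^ 2) atTop (𝓝 0) := by
    simpa [h1] using h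
  have h3 := h2.sqrt
  simpa [Real.sqrt_sq (norm_nonneg _)] using h3

theorem ae_subseq {a : X → F} {b : ℕ → X → F} (ha : MemLp a 2 μ) (hb : ∀ n, MemLp (b n) 2 μ)
    (h : Tendsto (fun n => ∫ x, ‖a x - b n x‖ ^ 2 ∂μ) atTop (𝓝 0)) :
    ∃ ns : ℕ → ℕ, StrictMono ns ∧
      ∀ᵐ x ∂μ, Tendsto (fun i => b (ns i) x) atTop (𝓝 (a x)) := by
  have h1 := toLp_tendsto ha hb h
  have h2 : Tendsto (fun n => eLpNorm (b n - a) 2 μ) atTop (𝓝 0) := by
    rw [Lp.tendsto_Lp_iff_tendsto_eLpNorm'] at h1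
    refine h1.congr fun n => ?_
    apply eLpNorm_congr_ae
    filter_upwards [(hb n).coeFn_toLp, ha.coeFn_toLp] with x h3 h4
    simp [h3, h4]
  have h3 := tendstoInMeasure_of_tendsto_eLpNorm (by norm_num) (fun n => (hb n).1) ha.1 h2
  exact h3.exists_seq_tendsto_ae

end L2

section inner

variable {X : Type*} [MeasurableSpace X] {μ : Measure X} {F : Type*} [NormedAddCommGroup F]
  [InnerProductSpace ℝ F]

theorem inner_toLp {a b : X → F} (ha : MemLp a 2 μ) (hb : MemLp b 2 μ) :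
    ⟪ha.toLp a, hb.toLp b⟫ = ∫ x, ⟪a x, b x⟫ ∂μ := by
  rw [L2.inner_def]
  apply integral_congr_ae
  filter_upwards [ha.coeFn_toLp, hb.coeFn_toLp] with x h1 h2
  rw [h1, h2]

theorem tendsto_int_inner {a a' : X → F} {b b' : ℕ → X → F} (ha : MemLp a 2 μ)
    (ha' : MemLp a' 2 μ) (hb : ∀ n, MemLp (b n) 2 μ) (hb' : ∀ n, MemLp (b' n) 2 μ)
    (h : Tendsto (fun n => ∫ x, ‖a x - b n x‖ ^ 2 ∂μ) atTop (𝓝 0))
    (h' : Tendsto (fun n => ∫ x, ‖a' x - b' n x‖ ^ 2 ∂μ) atTop (𝓝 0)) :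
    Tendsto (fun n => ∫ x, ⟪b n x, b' n x⟫ ∂μ) atTop (𝓝 (∫ x, ⟪a x, a' x⟫ ∂μ)) := by
  have h1 := (toLp_tendsto ha hb h).inner (𝕜 := ℝ) (toLp_tendsto ha' hb' h')
  rw [inner_toLp] at h1
  refine h1.congr fun n => ?_
  rw [inner_toLp]

theorem int_inner_sq_le {a b : X → F} (ha : MemLp a 2 μ) (hb : MemLp b 2 μ) :
    (∫ x, ⟪a x, b x⟫ ∂μ) ^ 2 ≤ (∫ x, ‖a x‖ ^ 2 ∂μ) * ∫ x, ‖b x‖ ^ 2 ∂μ := by
  rw [← inner_toLp ha hb, ← toLp_norm_sq ha, ← toLp_norm_sq hb, ← mul_pow]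
  exact sq_le_sq' (by
    have := abs_real_inner_le_norm (ha.toLp a) (hb.toLp b)
    linarith [neg_abs_le (⟪ha.toLp a, hb.toLp b⟫ : ℝ)]) (real_inner_le_norm _ _)

end inner

theorem inner_gradient {φ : E N → ℝ} (x v : E N) : ⟪gradient φ x, v⟫ = fderiv ℝ φ x v := by
  rw [gradient, InnerProductSpace.toDual_symm_apply]

theorem norm_gradient {φ : E N → ℝ} (x : E N) : ‖gradient φ x‖ = ‖fderiv ℝ φ x‖ := by
  rw [gradient, LinearIsometryEquiv.norm_map]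

theorem Tst.grad_cont {φ : E N → ℝ} (h : ContDiff ℝ 1 φ) : Continuous (gradient φ) :=
  (InnerProductSpace.toDual ℝ (E N)).symm.continuous.comp (h.continuous_fderiv (by norm_num))

theorem Tst.grad_supp {φ : E N → ℝ} (h : HasCompactSupport φ) :
    HasCompactSupport (gradient φ) := by
  have h1 := HasCompactSupport.fderiv (𝕜 := ℝ) h
  exact h1.comp_left (g := (InnerProductSpace.toDual ℝ (E N)).symm) (map_zero _)

theorem Tst.mem {φ : E N → ℝ} (h : Tst Ω φ) : MemLp φ 2 volume :=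
  h.1.continuous.memLp_of_hasCompactSupport h.2.1

theorem Tst.memG {φ : E N → ℝ} (h : Tst Ω φ) : MemLp (gradient φ) 2 volume :=
  (Tst.grad_cont h.1).memLp_of_hasCompactSupport (Tst.grad_supp h.2.1)

theorem grad_add {φ ψ : E N → ℝ} (h : ContDiff ℝ 1 φ) (h' : ContDiff ℝ 1 ψ) (x : E N) :
    gradient (fun x => φ x + ψ x) x = gradient φ x + gradient ψ x := by
  have h1 : fderiv ℝ (fun x => φ x + ψ x) x = fderiv ℝ φ x + fderiv ℝ ψ x :=
    fderiv_fun_add ((h.differentiable (by norm_num)) x) ((h'.differentiable (by norm_num)) x)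
  rw [gradient, h1, map_add, gradient, gradient]

theorem grad_smul {φ : E N → ℝ} (h : ContDiff ℝ 1 φ) (c : ℝ) (x : E N) :
    gradient (fun x => c * φ x) x = c • gradient φ x := by
  have h1 : fderiv ℝ (fun x => c * φ x) x = c • fderiv ℝ φ x := by
    have := fderiv_const_mul ((h.differentiable (by norm_num)) x) c
    simpa using this
  rw [gradient, h1, gradient, map_smul]

theorem grad_mul {φ ψ : E N → ℝ} (h : ContDiff ℝ 1 φ) (h' : ContDiff ℝ 1 ψ) (x : E N) :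
    gradient (fun x => φ x * ψ x) x = φ x • gradient ψ x + ψ x • gradient φ x := by
  have h1 : fderiv ℝ (fun x => φ x * ψ x) x = φ x • fderiv ℝ ψ x + ψ x • fderiv ℝ φ x :=
    fderiv_fun_mul ((h.differentiable (by norm_num)) x) ((h'.differentiable (by norm_num)) x)
  rw [gradient, h1, map_add, gradient, gradient, map_smul, map_smul]

theorem grad_comp {φ : E N → ℝ} (h : ContDiff ℝ 1 φ) {F : ℝ → ℝ} (hF : ContDiff ℝ 1 F)
    (x : E N) : gradient (fun x => F (φ x)) x = deriv F (φ x) • gradient φ x := by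
  have h1 : HasFDerivAt (fun x => F (φ x)) (deriv F (φ x) • fderiv ℝ φ x) x := by
    have h2 : HasDerivAt F (deriv F (φ x)) (φ x) :=
      ((hF.differentiable (by norm_num)) (φ x)).hasDerivAt
    exact h2.comp_hasFDerivAt x ((h.differentiable (by norm_num)) x).hasFDerivAt
  rw [gradient, h1.fderiv, gradient, map_smul]

theorem H10.ofTst {u : E N → ℝ} {U : E N → E N} (hu : MemLp u 2 volume) (hU : MemLp U 2 volume)
    (h : ∀ δ : ℝ, 0 < δ → ∃ φ : E N → ℝ, Tst Ω φ ∧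
      ∫ x, ‖u x - φ x‖ ^ 2 ≤ δ ∧ ∫ x, ‖U x - gradient φ x‖ ^ 2 ≤ δ) : H10 Ω u U := by
  refine ⟨hu, hU, fun δ hδ => ?_⟩
  obtain ⟨φ, h1, h2, h3⟩ := h δ hδ
  refine ⟨φ, h1, ?_, h3⟩
  simpa [Real.norm_eq_abs, sq_abs] using h2

theorem H10.toTst {u : E N → ℝ} {U : E N → E N} (h : H10 Ω u U) {δ : ℝ} (hδ : 0 < δ) :
    ∃ φ : E N → ℝ, Tst Ω φ ∧
      ∫ x, ‖u x - φ x‖ ^ 2 ≤ δ ∧ ∫ x, ‖U x - gradient φ x‖ ^ 2 ≤ δ := by
  obtain ⟨φ, h1, h2, h3⟩ := h.2.2 δ hδ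
  refine ⟨φ, h1, ?_, h3⟩
  simpa [Real.norm_eq_abs, sq_abs] using h2

/-- approximating sequence -/
theorem H10.seq {u : E N → ℝ} {U : E N → E N} (h : H10 Ω u U) :
    ∃ φ : ℕ → E N → ℝ, (∀ n, Tst Ω (φ n)) ∧
      Tendsto (fun n => ∫ x, ‖u x - φ n x‖ ^ 2) atTop (𝓝 0) ∧
      Tendsto (fun n => ∫ x, ‖U x - gradient (φ n) x‖ ^ 2) atTop (𝓝 0) := by
  choose φ h1 h2 h3 using fun n : ℕ => h.toTst (δ := 1 / ((n : ℝ) + 1)) (by positivity)
  refine ⟨φ, h1, ?_, ?_⟩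
  · exact squeeze_zero (fun n => integral_nonneg fun x => by positivity) h2
      tendsto_one_div_add_atTop_nhds_zero_nat
  · exact squeeze_zero (fun n => integral_nonneg fun x => by positivity) h3
      tendsto_one_div_add_atTop_nhds_zero_nat

theorem H10.ofSeq {u : E N → ℝ} {U : E N → E N} (hu : MemLp u 2 volume) (hU : MemLp U 2 volume)
    {φ : ℕ → E N → ℝ} (h : ∀ n, Tst Ω (φ n))
    (h2 : Tendsto (fun n => ∫ x, ‖u x - φ n x‖ ^ 2) atTop (𝓝 0))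
    (h3 : Tendsto (fun n => ∫ x, ‖U x - gradient (φ n) x‖ ^ 2) atTop (𝓝 0)) : H10 Ω u U := by
  apply H10.ofTst hu hU
  intro δ hδ
  have h4 := (h2.eventually (ge_mem_nhds hδ)).and (h3.eventually (ge_mem_nhds hδ))
  obtain ⟨n, h5, h6⟩ := h4.exists
  exact ⟨φ n, h n, h5, h6⟩

end Pool.Agent.H25.HX
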