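import Pool.Agent.H25.HX.SobA

/-! # Module A: calculus of `H¹₀` pairs -/

set_option autoImplicit false

open MeasureTheory Filter Topology
open scoped RealInnerProductSpace

namespace Pool.Agent.H25.HX

variable {N : ℕ} {Ω : Set (E N)}

theorem Tst.h10 {φ : E N → ℝ} (h : Tst Ω φ) : H10 Ω φ (gradient φ) :=
  ⟨h.mem, h.memG, fun δ hδ => ⟨φ, h, by simpa using hδ.le, by simpa using hδ.le⟩⟩

theorem H10.congr {u u' : E N → ℝ} {U U' : E N → E N} (h : H10 Ω u U) (hu : u =ᵐ[volume] u')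
    (hU : U =ᵐ[volume] U') : H10 Ω u' U' := by
  refine ⟨(memLp_congr_ae hu).1 h.1, (memLp_congr_ae hU).1 h.2.1, fun δ hδ => ?_⟩
  obtain ⟨φ, h1, h2, h3⟩ := h.2.2 δ hδ
  refine ⟨φ, h1, ?_, ?_⟩
  · refine le_of_eq_of_le (integral_congr_ae ?_) h2
    filter_upwards [hu] with x hx
    rw [hx]
  · refine le_of_eq_of_le (integral_congr_ae ?_) h3
    filter_upwards [hU] with x hx
    rw [hx]

theorem Tst.zero : Tst Ω (fun _ : E N => (0 : ℝ)) := by
  refine ⟨contDiff_const, HasCompactSupport.zero, ?_⟩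
  have : tsupport (fun _ : E N => (0 : ℝ)) = ∅ := by
    rw [tsupport_eq_empty_iff]; rfl
  rw [this]
  exact Set.empty_subset _

theorem H10.zero : H10 Ω (fun _ => 0) (fun _ => 0) := by
  refine (Tst.zero (Ω := Ω)).h10.congr (ae_of_all _ fun _ => rfl) (ae_of_all _ fun x => ?_)
  simp

theorem H10.add {u v : E N → ℝ} {U V : E N → E N} (h : H10 Ω u U) (h' : H10 Ω v V) :
    H10 Ω (fun x => u x + v x) (fun x => U x + V x) := by
  apply H10.ofTst (h.1.add h'.1) (h.2.1.add h'.2.1)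
  intro δ hδ
  obtain ⟨φ, h1, h2, h3⟩ := h.toTst (δ := δ / 4) (by positivity)
  obtain ⟨ψ, h4, h5, h6⟩ := h'.toTst (δ := δ / 4) (by positivity)
  refine ⟨fun x => φ x + ψ x, ⟨h1.1.add h4.1, h1.2.1.add h4.2.1, ?_⟩, ?_, ?_⟩
  · exact (tsupport_add φ ψ).trans (Set.union_subset h1.2.2 h4.2.2)
  · have := int_sq_add (h.1.sub h1.mem) (h'.1.sub h4.mem)
    simp only [Pi.sub_apply] at this
    refine le_trans (le_of_eq (integral_congr_ae (ae_of_all _ fun x => ?_))) (this.trans ?_)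
    · simp only [Pi.add_apply]
      congr 2
      ring
    · linarith
  · have := int_sq_add (h.2.1.sub h1.memG) (h'.2.1.sub h4.memG)
    simp only [Pi.sub_apply] at this
    refine le_trans (le_of_eq (integral_congr_ae (ae_of_all _ fun x => ?_))) (this.trans ?_)
    · simp only [Pi.add_apply]
      rw [grad_add h1.1 h4.1]
      congr 2
      abel
    · linarith

theorem H10.smul {u : E N → ℝ} {U : E N → E N} (c : ℝ) (h : H10 Ω u U) :
    H10 Ω (fun x => c * u x) (fun x => c • U x) := by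
  apply H10.ofTst (h.1.const_mul c) (h.2.1.const_smul c)
  intro δ hδ
  obtain ⟨φ, h1, h2, h3⟩ := h.toTst (δ := δ / (1 + c ^ 2)) (by positivity)
  have hc : c ^ 2 * (δ / (1 + c ^ 2)) ≤ δ := by
    rw [mul_div_assoc', div_le_iff₀ (by positivity)]
    nlinarith [sq_nonneg c]
  refine ⟨fun x => c * φ x, ⟨contDiff_const.mul h1.1, h1.2.1.mul_left, ?_⟩, ?_, ?_⟩
  · exact (tsupport_mul_subset_right).trans h1.2.2
  · have h4 : ∀ x, ‖c * u x - c * φ x‖ ^ 2 = c ^ 2 * ‖u x - φ x‖ ^ 2 := by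
      intro x
      rw [← mul_sub, norm_mul, mul_pow, Real.norm_eq_abs c, sq_abs]
    simp only [h4]
    rw [integral_const_mul]
    exact (mul_le_mul_of_nonneg_left h2 (sq_nonneg c)).trans hc
  · have h4 : ∀ x, ‖(c • U) x - gradient (fun x => c * φ x) x‖ ^ 2 =
        c ^ 2 * ‖U x - gradient φ x‖ ^ 2 := by
      intro x
      rw [grad_smul h1.1, Pi.smul_apply, ← smul_sub, norm_smul, mul_pow, Real.norm_eq_abs c, sq_abs]
    simp only [h4]
    rw [integral_const_mul]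
    exact (mul_le_mul_of_nonneg_left h3 (sq_nonneg c)).trans hc

theorem H10.sub {u v : E N → ℝ} {U V : E N → E N} (h : H10 Ω u U) (h' : H10 Ω v V) :
    H10 Ω (fun x => u x - v x) (fun x => U x - V x) := by
  have h1 := h.add (h'.smul (-1))
  refine h1.congr (ae_of_all _ fun x => ?_) (ae_of_all _ fun x => ?_)
  · simp only
    ring
  · simp only
    rw [neg_one_smul, sub_eq_add_neg]

theorem H10.sum {ι : Type} (s : Finset ι) {u : ι → E N → ℝ} {U : ι → E N → E N}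
    (h : ∀ i ∈ s, H10 Ω (u i) (U i)) :
    H10 Ω (fun x => ∑ i ∈ s, u i x) (fun x => ∑ i ∈ s, U i x) := by
  classical
  induction s using Finset.induction_on with
  | empty => simpa using H10.zero
  | insert a s ha ih =>
    simp only [Finset.sum_insert ha]
    exact (h a (Finset.mem_insert_self a s)).add
      (ih fun i hi => h i (Finset.mem_insert_of_mem hi))

theorem H10.mono {Ω' : Set (E N)} {u : E N → ℝ} {U : E N → E N} (h : H10 Ω u U) (hΩ : Ω ⊆ Ω') :
    H10 Ω' u U := by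
  refine ⟨h.1, h.2.1, fun δ hδ => ?_⟩
  obtain ⟨φ, h1, h2, h3⟩ := h.2.2 δ hδ
  exact ⟨φ, ⟨h1.1, h1.2.1, h1.2.2.trans hΩ⟩, h2, h3⟩

/-- `H¹₀` is closed -/
theorem H10.closed {u : E N → ℝ} {U : E N → E N} (hu : MemLp u 2 volume) (hU : MemLp U 2 volume)
    (h : ∀ δ : ℝ, 0 < δ → ∃ (v : E N → ℝ) (V : E N → E N), H10 Ω v V ∧
      ∫ x, (u x - v x) ^ 2 ≤ δ ∧ ∫ x, ‖U x - V x‖ ^ 2 ≤ δ) : H10 Ω u U := by
  apply H10.ofTst hu hU
  intro δ hδ
  obtain ⟨v, V, h1, h2, h3⟩ := h (δ / 4) (by positivity)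
  obtain ⟨φ, h4, h5, h6⟩ := h1.toTst (δ := δ / 4) (by positivity)
  have h2' : ∫ x, ‖u x - v x‖ ^ 2 ≤ δ / 4 := by
    simpa [Real.norm_eq_abs, sq_abs] using h2
  refine ⟨φ, h4, ?_, ?_⟩
  · have := int_sq_tri hu h1.1 h4.mem
    linarith
  · have := int_sq_tri hU h1.2.1 h4.memG
    linarith

theorem bdd_mem {F : Type*} [NormedAddCommGroup F] [NormedSpace ℝ F] {θ : E N → ℝ}
    (hθ : Continuous θ) {C : ℝ} (h1 : ∀ x, |θ x| ≤ C) {a : E N → F} (ha : MemLp a 2 volume) :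
    MemLp (fun x => θ x • a x) 2 volume := by
  refine MemLp.of_le_mul (c := C) ha (hθ.aestronglyMeasurable.smul ha.1) (ae_of_all _ fun x => ?_)
  rw [norm_smul]
  exact mul_le_mul_of_nonneg_right (h1 x) (norm_nonneg _)

/-- multiplication by a bounded `C¹` function with bounded gradient -/
theorem H10.mul {u θ : E N → ℝ} {U : E N → E N} (h : H10 Ω u U) (hθ : ContDiff ℝ 1 θ) {C : ℝ}
    (h1 : ∀ x, |θ x| ≤ C) (h2 : ∀ x, ‖gradient θ x‖ ≤ C) :
    H10 Ω (fun x => θ x * u x) (fun x => θ x • U x + u x • gradient θ x) := by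
  have hC : 0 ≤ C := (abs_nonneg _).trans (h1 0)
  have m1 : MemLp (fun x => θ x * u x) 2 volume := bdd_mem hθ.continuous h1 h.1
  have m2 : MemLp (fun x => u x • gradient θ x) 2 volume := by
    refine MemLp.of_le_mul (c := C) h.1 (h.1.1.smul (Tst.grad_cont hθ).aestronglyMeasurable)
      (ae_of_all _ fun x => ?_)
    rw [norm_smul, mul_comm]
    exact mul_le_mul_of_nonneg_right (h2 x) (norm_nonneg _)
  have m3 : MemLp (fun x => θ x • U x) 2 volume := bdd_mem hθ.continuous h1 h.2.1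
  apply H10.ofTst m1 (m3.add m2)
  intro δ hδ
  obtain ⟨φ, h3, h4, h5⟩ := h.toTst (δ := δ / (4 * (1 + C ^ 2))) (by positivity)
  have hc : 4 * C ^ 2 * (δ / (4 * (1 + C ^ 2))) ≤ δ := by
    rw [mul_div_assoc', div_le_iff₀ (by positivity)]
    nlinarith [sq_nonneg C]
  have i1 := sq_norm_integrable (h.1.sub h3.mem)
  have i2 := sq_norm_integrable (h.2.1.sub h3.memG)
  simp only [Pi.sub_apply] at i1 i2
  have a1 : ∀ x, |θ x| ^ 2 ≤ C ^ 2 := fun x => pow_le_pow_left₀ (abs_nonneg _) (h1 x) 2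
  have a2 : ∀ x, ‖gradient θ x‖ ^ 2 ≤ C ^ 2 := fun x => pow_le_pow_left₀ (norm_nonneg _) (h2 x) 2
  have hT : Tst Ω (fun x => θ x * φ x) :=
    ⟨hθ.mul h3.1, h3.2.1.mul_left, (tsupport_mul_subset_right).trans h3.2.2⟩
  refine ⟨fun x => θ x * φ x, hT, ?_, ?_⟩
  · have h6 : ∫ x, ‖θ x * u x - θ x * φ x‖ ^ 2 ≤ ∫ x, C ^ 2 * ‖u x - φ x‖ ^ 2 := by
      apply integral_mono (sq_norm_integrable (m1.sub hT.mem)) (i1.const_mul _)
      intro x
      simp only [Pi.sub_apply]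
      rw [← mul_sub, norm_mul, mul_pow]
      exact mul_le_mul_of_nonneg_right (a1 x) (by positivity)
    rw [integral_const_mul] at h6
    have : C ^ 2 * ∫ x, ‖u x - φ x‖ ^ 2 ≤ C ^ 2 * (δ / (4 * (1 + C ^ 2))) :=
      mul_le_mul_of_nonneg_left h4 (sq_nonneg C)
    have h7 : 0 ≤ C ^ 2 * (δ / (4 * (1 + C ^ 2))) := by positivity
    linarith
  · have h6 : ∫ x, ‖(θ x • U x + u x • gradient θ x) - gradient (fun x => θ x * φ x) x‖ ^ 2 ≤
        ∫ x, (2 * C ^ 2 * ‖U x - gradient φ x‖ ^ 2 + 2 * C ^ 2 * ‖u x - φ x‖ ^ 2) := by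
      apply integral_mono (sq_norm_integrable ((m3.add m2).sub hT.memG))
        ((i2.const_mul _).add (i1.const_mul _))
      intro x
      simp only [Pi.sub_apply, Pi.add_apply]
      rw [grad_mul hθ h3.1]
      have e1 : θ x • U x + u x • gradient θ x - (θ x • gradient φ x + φ x • gradient θ x) =
          θ x • (U x - gradient φ x) + (u x - φ x) • gradient θ x := by
        rw [smul_sub, sub_smul]
        abel
      rw [e1]
      have e2 := norm_add_le (θ x • (U x - gradient φ x)) ((u x - φ x) • gradient θ x)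
      rw [norm_smul, norm_smul] at e2
      have e3 := norm_nonneg (θ x • (U x - gradient φ x) + (u x - φ x) • gradient θ x)
      have e4 : ‖θ x‖ * ‖U x - gradient φ x‖ ≤ C * ‖U x - gradient φ x‖ :=
        mul_le_mul_of_nonneg_right (h1 x) (norm_nonneg _)
      have e5 : ‖u x - φ x‖ * ‖gradient θ x‖ ≤ ‖u x - φ x‖ * C :=
        mul_le_mul_of_nonneg_left (h2 x) (norm_nonneg _)
      have e6 : 0 ≤ C * ‖U x - gradient φ x‖ := by positivity
      have e7 : 0 ≤ ‖u x - φ x‖ * C := by positivity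
      nlinarith [sq_nonneg (C * ‖U x - gradient φ x‖ - ‖u x - φ x‖ * C)]
    rw [integral_add (i2.const_mul _) (i1.const_mul _), integral_const_mul,
      integral_const_mul] at h6
    have e1 : 2 * C ^ 2 * ∫ x, ‖U x - gradient φ x‖ ^ 2 ≤ 2 * C ^ 2 * (δ / (4 * (1 + C ^ 2))) :=
      mul_le_mul_of_nonneg_left h5 (by positivity)
    have e2 : 2 * C ^ 2 * ∫ x, ‖u x - φ x‖ ^ 2 ≤ 2 * C ^ 2 * (δ / (4 * (1 + C ^ 2))) :=
      mul_le_mul_of_nonneg_left h4 (by positivity)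
    simp only [Pi.add_apply]
    linarith

end Pool.Agent.H25.HX
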