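import Pool.Agent.H25.HX.SobB

/-! # Module A: calculus of `H¹₀` pairs, second part -/

set_option autoImplicit false

open MeasureTheory Filter Topology
open scoped RealInnerProductSpace

namespace Pool.Agent.H25.HX

variable {N : ℕ} {Ω : Set (E N)}

theorem lip_of_deriv {F : ℝ → ℝ} (hF : ContDiff ℝ 1 F) {C : ℝ} (hC : ∀ s, |deriv F s| ≤ C)
    (a b : ℝ) : |F a - F b| ≤ C * |a - b| := by
  have := Convex.norm_image_sub_le_of_norm_deriv_le (f := F) (C := C) (s := Set.univ)
    (fun x _ => (hF.differentiable (by norm_num)) x) (fun x _ => hC x) convex_univ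
    (Set.mem_univ b) (Set.mem_univ a)
  simpa [Real.norm_eq_abs] using this

/-- chain rule -/
theorem H10.comp {u : E N → ℝ} {U : E N → E N} (h : H10 Ω u U) {F : ℝ → ℝ}
    (hF : ContDiff ℝ 1 F) (h0 : F 0 = 0) {C : ℝ} (hC : ∀ s, |deriv F s| ≤ C) :
    H10 Ω (fun x => F (u x)) (fun x => deriv F (u x) • U x) := by
  have hC0 : 0 ≤ C := (abs_nonneg _).trans (hC 0)
  have hF' : Continuous (deriv F) := hF.continuous_deriv (by norm_num)
  have m1 : ∀ {v : E N → ℝ}, MemLp v 2 volume → MemLp (fun x => F (v x)) 2 volume := by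
    intro v hv
    refine MemLp.of_le_mul (c := C) hv
      (hF.continuous.comp_aestronglyMeasurable hv.1) (ae_of_all _ fun x => ?_)
    have := lip_of_deriv hF hC (v x) 0
    simpa [h0, Real.norm_eq_abs] using this
  have m2 : ∀ {v : E N → ℝ} {V : E N → E N}, MemLp v 2 volume → MemLp V 2 volume →
      MemLp (fun x => deriv F (v x) • V x) 2 volume := by
    intro v V hv hV
    refine MemLp.of_le_mul (c := C) hV
      ((hF'.comp_aestronglyMeasurable hv.1).smul hV.1) (ae_of_all _ fun x => ?_)
    rw [norm_smul]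
    exact mul_le_mul_of_nonneg_right (hC _) (norm_nonneg _)
  obtain ⟨φ0, t0, c0, d0⟩ := h.seq
  obtain ⟨ns, hns, hae⟩ := ae_subseq h.1 (fun n => (t0 n).mem) c0
  -- pass to the subsequence
  set φ : ℕ → E N → ℝ := fun n => φ0 (ns n) with hφ
  have t : ∀ n, Tst Ω (φ n) := fun n => t0 (ns n)
  have c : Tendsto (fun n => ∫ x, ‖u x - φ n x‖ ^ 2) atTop (𝓝 0) := c0.comp hns.tendsto_atTop
  have d : Tendsto (fun n => ∫ x, ‖U x - gradient (φ n) x‖ ^ 2) atTop (𝓝 0) :=
    d0.comp hns.tendsto_atTop
  have hT : ∀ n, Tst Ω (fun x => F (φ n x)) := by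
    intro n
    refine ⟨hF.comp (t n).1, (t n).2.1.comp_left h0, ?_⟩
    exact (closure_mono (Function.support_comp_subset h0 (φ n))).trans (t n).2.2
  apply H10.ofSeq (m1 h.1) (m2 h.1 h.2.1) hT
  · have h2 : ∀ n, ∫ x, ‖F (u x) - F (φ n x)‖ ^ 2 ≤ C ^ 2 * ∫ x, ‖u x - φ n x‖ ^ 2 := by
      intro n
      rw [← integral_const_mul]
      apply integral_mono (sq_norm_integrable ((m1 h.1).sub (m1 (t n).mem)))
        ((sq_norm_integrable (h.1.sub (t n).mem)).const_mul _)
      intro x
      simp only [Pi.sub_apply]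
      rw [← mul_pow]
      exact pow_le_pow_left₀ (norm_nonneg _) (lip_of_deriv hF hC _ _) 2
    refine squeeze_zero (fun n => integral_nonneg fun x => by positivity) h2 ?_
    simpa using c.const_mul (C ^ 2)
  · have h3 : Tendsto (fun n => ∫ x, |deriv F (u x) - deriv F (φ n x)| ^ 2 * ‖U x‖ ^ 2) atTop
        (𝓝 0) := by
      have h4 : Tendsto (fun n => ∫ x, |deriv F (u x) - deriv F (φ n x)| ^ 2 * ‖U x‖ ^ 2) atTop
        (𝓝 (∫ x : E N, (0 : ℝ))) := by
        apply tendsto_integral_of_dominated_convergence (fun x => (2 * C) ^ 2 * ‖U x‖ ^ 2)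
        · intro n
          have a1 := (hF'.comp_aestronglyMeasurable h.1.1).sub
            (hF'.comp_aestronglyMeasurable (t n).mem.1)
          exact (a1.norm.pow 2).mul (h.2.1.1.norm.pow 2)
        · exact (sq_norm_integrable h.2.1).const_mul _
        · intro n
          refine ae_of_all _ fun x => ?_
          rw [Real.norm_of_nonneg (by positivity)]
          refine mul_le_mul_of_nonneg_right ?_ (by positivity)
          refine pow_le_pow_left₀ (abs_nonneg _) ?_ 2
          have := abs_sub (deriv F (u x)) (deriv F (φ n x))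
          linarith [hC (u x), hC (φ n x), this]
        · filter_upwards [hae] with x hx
          have h5 : Tendsto (fun n => |deriv F (u x) - deriv F (φ n x)| ^ 2 * ‖U x‖ ^ 2) atTop
              (𝓝 (|deriv F (u x) - deriv F (u x)| ^ 2 * ‖U x‖ ^ 2)) :=
            (((tendsto_const_nhds.sub ((hF'.tendsto _).comp hx)).abs).pow 2).mul_const _
          simpa using h5
      simpa using h4
    have h4 : ∀ n, ∫ x, ‖deriv F (u x) • U x - gradient (fun x => F (φ n x)) x‖ ^ 2 ≤
        (2 * ∫ x, |deriv F (u x) - deriv F (φ n x)| ^ 2 * ‖U x‖ ^ 2) +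
          2 * C ^ 2 * ∫ x, ‖U x - gradient (φ n) x‖ ^ 2 := by
      intro n
      have i1 : Integrable (fun x => |deriv F (u x) - deriv F (φ n x)| ^ 2 * ‖U x‖ ^ 2)
          volume := by
        have a1 := (m2 h.1 h.2.1).sub (m2 (v := φ n) (t n).mem h.2.1)
        refine (sq_norm_integrable a1).congr (ae_of_all _ fun x => ?_)
        simp only [Pi.sub_apply]
        rw [← sub_smul, norm_smul, mul_pow, Real.norm_eq_abs]
      have i2 := sq_norm_integrable (h.2.1.sub (t n).memG)
      simp only [Pi.sub_apply] at i2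
      rw [← integral_const_mul, ← integral_const_mul, ← integral_add (i1.const_mul _)
        (i2.const_mul _)]
      apply integral_mono (sq_norm_integrable ((m2 h.1 h.2.1).sub (hT n).memG))
        ((i1.const_mul _).add (i2.const_mul _))
      intro x
      simp only [Pi.sub_apply, Pi.add_apply]
      rw [grad_comp (t n).1 hF]
      have e1 : deriv F (u x) • U x - deriv F (φ n x) • gradient (φ n) x =
          (deriv F (u x) - deriv F (φ n x)) • U x +
            deriv F (φ n x) • (U x - gradient (φ n) x) := by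
        rw [sub_smul, smul_sub]
        abel
      rw [e1]
      have e2 := norm_add_le ((deriv F (u x) - deriv F (φ n x)) • U x)
        (deriv F (φ n x) • (U x - gradient (φ n) x))
      rw [norm_smul, norm_smul] at e2
      set A := ‖deriv F (u x) - deriv F (φ n x)‖ * ‖U x‖ with hA
      set B := ‖deriv F (φ n x)‖ * ‖U x - gradient (φ n) x‖ with hB
      have e3 : B ≤ C * ‖U x - gradient (φ n) x‖ :=
        mul_le_mul_of_nonneg_right (hC _) (norm_nonneg _)
      have e4 : 0 ≤ A := by positivity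
      have e5 : 0 ≤ B := by positivity
      have e6 := norm_nonneg ((deriv F (u x) - deriv F (φ n x)) • U x +
            deriv F (φ n x) • (U x - gradient (φ n) x))
      have e7 : |deriv F (u x) - deriv F (φ n x)| ^ 2 * ‖U x‖ ^ 2 = A ^ 2 := by
        rw [hA, mul_pow, Real.norm_eq_abs]
      rw [e7]
      have e8 : B ^ 2 ≤ C ^ 2 * ‖U x - gradient (φ n) x‖ ^ 2 := by
        rw [← mul_pow]
        exact pow_le_pow_left₀ e5 e3 2
      nlinarith [sq_nonneg (A - B)]
    refine squeeze_zero (fun n => integral_nonneg fun x => by positivity) h4 ?_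
    have h5 := (h3.const_mul 2).add (d.const_mul (2 * C ^ 2))
    simpa using h5

/-- functions of `H¹₀(Ω)` vanish outside `Ω` -/
theorem H10.off {u : E N → ℝ} {U : E N → E N} (h : H10 Ω u U) :
    (∀ᵐ x, x ∉ Ω → u x = 0) ∧ (∀ᵐ x, x ∉ Ω → U x = 0) := by
  obtain ⟨φ, t, c, d⟩ := h.seq
  constructor
  · obtain ⟨ns, -, hae⟩ := ae_subseq h.1 (fun n => (t n).mem) c
    filter_upwards [hae] with x hx hxΩ
    have h1 : ∀ n, φ n x = 0 := fun n => by
      by_contra h2
      exact hxΩ ((t n).2.2 (subset_tsupport _ h2))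
    simp only [h1] at hx
    exact tendsto_nhds_unique hx tendsto_const_nhds |>.trans rfl
  · obtain ⟨ns, -, hae⟩ := ae_subseq h.2.1 (fun n => (t n).memG) d
    filter_upwards [hae] with x hx hxΩ
    have h1 : ∀ n, gradient (φ n) x = 0 := fun n => by
      by_contra h2
      have h3 : x ∈ tsupport (φ n) := by
        by_contra h4
        apply h2
        have h5 : fderiv ℝ (φ n) x = 0 := by
          have h6 : φ n =ᶠ[𝓝 x] fun _ => 0 := notMem_tsupport_iff_eventuallyEq.1 h4
          rw [h6.fderiv_eq]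
          simp
        rw [gradient, h5, map_zero]
      exact hxΩ ((t n).2.2 h3)
    simp only [h1] at hx
    exact tendsto_nhds_unique hx tendsto_const_nhds |>.trans rfl

/-- the identity for test functions extends to `H¹₀` -/
theorem H10.test {U : E N → E N} {ζ : E N → ℝ} (hU : MemLp U 2 volume) (hζ : MemLp ζ 2 volume)
    (h : ∀ φ : E N → ℝ, Tst Ω φ → ∫ x, ⟪U x, gradient φ x⟫ = ∫ x, ζ x * φ x)
    {z : E N → ℝ} {Z : E N → E N} (hz : H10 Ω z Z) : ∫ x, ⟪U x, Z x⟫ = ∫ x, ζ x * z x := by
  obtain ⟨φ, t, c, d⟩ := hz.seq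
  have h1 := tendsto_int_inner hU hz.2.1 (b := fun _ => U) (fun _ => hU) (fun n => (t n).memG)
    (by simp) d
  have h2 := tendsto_int_inner hζ hz.1 (b := fun _ => ζ) (fun _ => hζ) (fun n => (t n).mem)
    (by simp) c
  have h3 : ∀ n, ∫ x, ⟪U x, gradient (φ n) x⟫ = ∫ x, ⟪ζ x, φ n x⟫ := by
    intro n
    rw [h (φ n) (t n)]
    refine integral_congr_ae (ae_of_all _ fun x => ?_)
    simp [mul_comm]
  simp only [h3] at h1
  rw [tendsto_nhds_unique h1 h2]
  refine integral_congr_ae (ae_of_all _ fun x => ?_)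
  simp [mul_comm]

end Pool.Agent.H25.HX
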