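import Pool.Agent.H25.HX.SobC

/-! # Module A: calculus of `H¹₀` pairs, third part: radial fields, Poincaré, scaling -/

set_option autoImplicit false

open MeasureTheory Filter Topology
open scoped RealInnerProductSpace

namespace Pool.Agent.H25.HX

variable {N : ℕ} {Ω : Set (E N)}

/-- integration by parts against a radial field, test functions -/
theorem Tst.radial {φ : E N → ℝ} (h : ContDiff ℝ 1 φ) (hc : HasCompactSupport φ) (x₀ : E N)
    {a : ℝ → ℝ} (ha : ContDiff ℝ 1 a) :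
    ∫ x, φ x ^ 2 * ((N : ℝ) * a (‖x - x₀‖ ^ 2) +
        2 * ‖x - x₀‖ ^ 2 * deriv a (‖x - x₀‖ ^ 2)) =
      -(2 * ∫ x, φ x * (a (‖x - x₀‖ ^ 2) * ⟪x - x₀, gradient φ x⟫)) := by
  classical
  set e : Fin N → E N := fun i => EuclideanSpace.single i (1 : ℝ) with he
  have hn : ContDiff ℝ 1 (fun x : E N => ‖x - x₀‖ ^ 2) :=
    (contDiff_norm_sq ℝ).comp (contDiff_id.sub contDiff_const)
  have hnd : ∀ x v : E N, fderiv ℝ (fun x : E N => ‖x - x₀‖ ^ 2) x v = 2 * ⟪x - x₀, v⟫ := by
    intro x v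
    have h1 : HasFDerivAt (fun x : E N => ‖x - x₀‖ ^ 2)
        (2 • (innerSL ℝ (x - x₀)).comp (ContinuousLinearMap.id ℝ (E N))) x := by
      have h2 : HasFDerivAt (fun x : E N => x - x₀) (ContinuousLinearMap.id ℝ (E N)) x :=
        (hasFDerivAt_id x).sub_const x₀
      exact h2.norm_sq
    rw [h1.fderiv]
    simp [inner_sub_left]
  have hco : ∀ i : Fin N, ContDiff ℝ 1 (fun x : E N => ⟪x - x₀, e i⟫) := fun i =>
    (contDiff_id.sub contDiff_const).inner ℝ contDiff_const
  have hcod : ∀ (i : Fin N) (x v : E N), fderiv ℝ (fun x : E N => ⟪x - x₀, e i⟫) x v =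
      ⟪v, e i⟫ := by
    intro i x v
    have h2 : HasFDerivAt (fun x : E N => x - x₀) (ContinuousLinearMap.id ℝ (E N)) x :=
      (hasFDerivAt_id x).sub_const x₀
    have h1 := h2.inner ℝ (hasFDerivAt_const (e i) x)
    rw [h1.fderiv]
    simp
  have hA : ContDiff ℝ 1 (fun x : E N => a (‖x - x₀‖ ^ 2)) := ha.comp hn
  have hAd : ∀ x v : E N, fderiv ℝ (fun x : E N => a (‖x - x₀‖ ^ 2)) x v =
      deriv a (‖x - x₀‖ ^ 2) * (2 * ⟪x - x₀, v⟫) := by
    intro x v
    have h1 : HasDerivAt a (deriv a (‖x - x₀‖ ^ 2)) (‖x - x₀‖ ^ 2) :=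
      ((ha.differentiable (by norm_num)) _).hasDerivAt
    have h2 := h1.comp_hasFDerivAt x ((hn.differentiable (by norm_num)) x).hasFDerivAt
    have h3 : fderiv ℝ (fun x : E N => a (‖x - x₀‖ ^ 2)) x =
      deriv a (‖x - x₀‖ ^ 2) • fderiv ℝ (fun x : E N => ‖x - x₀‖ ^ 2) x := h2.fderiv
    rw [h3]
    simp [hnd]
  set f : Fin N → E N → ℝ := fun i x => a (‖x - x₀‖ ^ 2) * ⟪x - x₀, e i⟫ with hf
  have hfc : ∀ i, ContDiff ℝ 1 (f i) := fun i => hA.mul (hco i)
  have hfd : ∀ i x, fderiv ℝ (f i) x (e i) = 2 * deriv a (‖x - x₀‖ ^ 2) * ⟪x - x₀, e i⟫ ^ 2 +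
      a (‖x - x₀‖ ^ 2) := by
    intro i x
    have h1 : fderiv ℝ (f i) x = a (‖x - x₀‖ ^ 2) • fderiv ℝ (fun x : E N => ⟪x - x₀, e i⟫) x +
        (⟪x - x₀, e i⟫ : ℝ) • fderiv ℝ (fun x : E N => a (‖x - x₀‖ ^ 2)) x :=
      fderiv_fun_mul ((hA.differentiable (by norm_num)) x)
        (((hco i).differentiable (by norm_num)) x)
    rw [h1]
    have h2 : (⟪e i, e i⟫ : ℝ) = 1 := by simp [he]
    simp only [add_apply, smul_apply, smul_eq_mul, hcod,
      hAd, h2]
    ring
  have hφ2 : ContDiff ℝ 1 (fun x => φ x ^ 2) := h.pow 2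
  have hφ2d : ∀ i x, fderiv ℝ (fun x => φ x ^ 2) x (e i) = 2 * φ x * ⟪gradient φ x, e i⟫ := by
    intro i x
    have h1 : HasFDerivAt (fun x => φ x ^ 2) _ x :=
      (((h.differentiable (by norm_num)) x).hasFDerivAt).pow 2
    rw [h1.fderiv, inner_gradient]
    simp
  have hcs : HasCompactSupport (fun x => φ x ^ 2) := by
    have : (fun x => φ x ^ 2) = fun x => φ x * φ x := by
      funext x
      ring
    rw [this]
    exact hc.mul_left
  have key : ∀ i, ∫ x, f i x * (2 * φ x * ⟪gradient φ x, e i⟫) =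
      -∫ x, (2 * deriv a (‖x - x₀‖ ^ 2) * ⟪x - x₀, e i⟫ ^ 2 + a (‖x - x₀‖ ^ 2)) * φ x ^ 2 := by
    intro i
    have i1 : Integrable (fun x => fderiv ℝ (f i) x (e i) * φ x ^ 2) volume := by
      refine Continuous.integrable_of_hasCompactSupport ?_ hcs.mul_left
      exact (((hfc i).continuous_fderiv (by norm_num)).clm_apply continuous_const).mul
        hφ2.continuous
    have i2 : Integrable (fun x => f i x * fderiv ℝ (fun x => φ x ^ 2) x (e i)) volume := by
      refine Continuous.integrable_of_hasCompactSupport ?_ ?_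
      · exact (hfc i).continuous.mul
          ((hφ2.continuous_fderiv (by norm_num)).clm_apply continuous_const)
      · have := HasCompactSupport.fderiv_apply (𝕜 := ℝ) hcs (e i)
        exact this.mul_left
    have i3 : Integrable (fun x => f i x * φ x ^ 2) volume :=
      ((hfc i).continuous.mul hφ2.continuous).integrable_of_hasCompactSupport hcs.mul_left
    have := integral_mul_fderiv_eq_neg_fderiv_mul_of_integrable i1 i2 i3
      (fun x _ => ((hfc i).differentiable (by norm_num)) x)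
      (fun x _ => (hφ2.differentiable (by norm_num)) x)
    simpa only [hfd, hφ2d] using this
  have hsum1 : ∀ x : E N, ∑ i, (⟪x - x₀, e i⟫ : ℝ) ^ 2 = ‖x - x₀‖ ^ 2 := by
    intro x
    rw [EuclideanSpace.real_norm_sq_eq]
    refine Finset.sum_congr rfl fun i _ => ?_
    simp [he, EuclideanSpace.inner_single_right]
  have hsum2 : ∀ x : E N, ∑ i, (⟪x - x₀, e i⟫ : ℝ) * ⟪gradient φ x, e i⟫ =
      ⟪x - x₀, gradient φ x⟫ := by
    intro x
    rw [PiLp.inner_apply]
    refine Finset.sum_congr rfl fun i _ => ?_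
    rw [he]
    simp only [EuclideanSpace.inner_single_right]
    simp [mul_comm]
  have hgc : Continuous (gradient φ) := Tst.grad_cont h
  have c1 : Continuous fun x : E N => a (‖x - x₀‖ ^ 2) := hA.continuous
  have c2 : Continuous fun x : E N => deriv a (‖x - x₀‖ ^ 2) :=
    (ha.continuous_deriv (by norm_num)).comp hn.continuous
  have c3 : ∀ i, Continuous fun x : E N => (⟪x - x₀, e i⟫ : ℝ) := fun i => (hco i).continuous
  have I1 : ∀ i ∈ Finset.univ, Integrable (fun x =>
      (2 * deriv a (‖x - x₀‖ ^ 2) * ⟪x - x₀, e i⟫ ^ 2 + a (‖x - x₀‖ ^ 2)) * φ x ^ 2) volume := by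
    intro i _
    refine Continuous.integrable_of_hasCompactSupport ?_ hcs.mul_left
    exact (((continuous_const.mul c2).mul ((c3 i).pow 2)).add c1).mul hφ2.continuous
  have I2 : ∀ i ∈ Finset.univ, Integrable (fun x =>
      f i x * (2 * φ x * ⟪gradient φ x, e i⟫)) volume := by
    intro i _
    refine Continuous.integrable_of_hasCompactSupport ?_ ?_
    · exact (hfc i).continuous.mul ((continuous_const.mul h.continuous).mul
        (hgc.inner continuous_const))
    · refine HasCompactSupport.mul_left ?_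
      refine HasCompactSupport.mul_right ?_
      exact hc.mul_left
  have T := Finset.sum_congr (rfl : (Finset.univ : Finset (Fin N)) = Finset.univ)
    fun i _ => key i
  rw [← integral_finsetSum _ I2, Finset.sum_neg_distrib, ← integral_finsetSum _ I1] at T
  have T1 : ∫ x, ∑ i, f i x * (2 * φ x * ⟪gradient φ x, e i⟫) =
      2 * ∫ x, φ x * (a (‖x - x₀‖ ^ 2) * ⟪x - x₀, gradient φ x⟫) := by
    rw [← integral_const_mul]
    refine integral_congr_ae (ae_of_all _ fun x => ?_)
    simp only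
    rw [← hsum2 x, Finset.mul_sum, Finset.mul_sum, Finset.mul_sum]
    refine Finset.sum_congr rfl fun i _ => ?_
    simp only [hf]
    ring
  have T2 : ∫ x, ∑ i, (2 * deriv a (‖x - x₀‖ ^ 2) * (⟪x - x₀, e i⟫ : ℝ) ^ 2 +
      a (‖x - x₀‖ ^ 2)) * φ x ^ 2 = ∫ x, φ x ^ 2 * ((N : ℝ) * a (‖x - x₀‖ ^ 2) +
        2 * ‖x - x₀‖ ^ 2 * deriv a (‖x - x₀‖ ^ 2)) := by
    refine integral_congr_ae (ae_of_all _ fun x => ?_)
    simp only
    rw [← Finset.sum_mul, Finset.sum_add_distrib, ← Finset.mul_sum, hsum1 x]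
    simp only [Finset.sum_const, Finset.card_univ, Fintype.card_fin, nsmul_eq_mul]
    ring
  rw [T1, T2] at T
  linarith

end Pool.Agent.H25.HX
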