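import Pool.Agent.H25.HX.SobD

/-! # Module A: calculus of `H¹₀` pairs, fourth part -/

set_option autoImplicit false

open MeasureTheory Filter Topology
open scoped RealInnerProductSpace

namespace Pool.Agent.H25.HX

variable {N : ℕ} {Ω : Set (E N)}

/-- bounded multipliers preserve `L²` convergence -/
theorem bdd_tendsto {F : Type*} [NormedAddCommGroup F] [NormedSpace ℝ F] {θ : E N → ℝ}
    (hθ : Continuous θ) {C : ℝ} (h1 : ∀ x, |θ x| ≤ C) {a : E N → F} {b : ℕ → E N → F}
    (ha : MemLp a 2 volume) (hb : ∀ n, MemLp (b n) 2 volume)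
    (h : Tendsto (fun n => ∫ x, ‖a x - b n x‖ ^ 2) atTop (𝓝 0)) :
    Tendsto (fun n => ∫ x, ‖θ x • a x - θ x • b n x‖ ^ 2) atTop (𝓝 0) := by
  have h2 : ∀ n, ∫ x, ‖θ x • a x - θ x • b n x‖ ^ 2 ≤ C ^ 2 * ∫ x, ‖a x - b n x‖ ^ 2 := by
    intro n
    rw [← integral_const_mul]
    apply integral_mono (sq_norm_integrable ((bdd_mem hθ h1 ha).sub (bdd_mem hθ h1 (hb n))))
      ((sq_norm_integrable (ha.sub (hb n))).const_mul _)
    intro x
    simp only [Pi.sub_apply]
    rw [← smul_sub, norm_smul, mul_pow]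
    exact mul_le_mul_of_nonneg_right (pow_le_pow_left₀ (norm_nonneg _) (h1 x) 2) (by positivity)
  refine squeeze_zero (fun n => integral_nonneg fun x => by positivity) h2 ?_
  simpa using h.const_mul (C ^ 2)

/-- integration by parts against a radial field `x ↦ a(|x-x₀|²) (x-x₀)` -/
theorem H10.radial {u : E N → ℝ} {U : E N → E N} (h : H10 Ω u U) (x₀ : E N) {a a' : ℝ → ℝ}
    (ha : ContDiff ℝ 1 a) (ha' : ∀ s, 0 ≤ s → HasDerivAt a (a' s) s) {C : ℝ}
    (h1 : ∀ s, 0 ≤ s → |a s| * (1 + Real.sqrt s) ≤ C)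
    (h2 : ∀ s, 0 ≤ s → |(N : ℝ) * a s + 2 * s * a' s| ≤ C) :
    ∫ x, u x ^ 2 * ((N : ℝ) * a (‖x - x₀‖ ^ 2) + 2 * ‖x - x₀‖ ^ 2 * a' (‖x - x₀‖ ^ 2)) =
      -(2 * ∫ x, u x * (a (‖x - x₀‖ ^ 2) * ⟪x - x₀, U x⟫)) := by
  have hda : ∀ s, 0 ≤ s → a' s = deriv a s := fun s hs => (ha' s hs).deriv.symm
  obtain ⟨φ, t, c, d⟩ := h.seq
  have hcn : Continuous fun x : E N => ‖x - x₀‖ ^ 2 :=
    ((continuous_id.sub continuous_const).norm).pow 2
  set θ : E N → ℝ := fun x => (N : ℝ) * a (‖x - x₀‖ ^ 2) +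
    2 * ‖x - x₀‖ ^ 2 * deriv a (‖x - x₀‖ ^ 2) with hθd
  have hθ : Continuous θ :=
    (continuous_const.mul (ha.continuous.comp hcn)).add
      ((continuous_const.mul hcn).mul ((ha.continuous_deriv (by norm_num)).comp hcn))
  have hθb : ∀ x, |θ x| ≤ C := by
    intro x
    have := h2 (‖x - x₀‖ ^ 2) (by positivity)
    rwa [hda _ (by positivity)] at this
  -- left side
  have L : Tendsto (fun n => ∫ x, φ n x ^ 2 * θ x) atTop (𝓝 (∫ x, u x ^ 2 * θ x)) := by
    have h3 := tendsto_int_inner (bdd_mem hθ hθb h.1) h.1 (fun n => bdd_mem hθ hθb (t n).mem)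
      (fun n => (t n).mem) (bdd_tendsto hθ hθb h.1 (fun n => (t n).mem) c) c
    have e1 : ∀ v : E N → ℝ, ∫ x, ⟪θ x • v x, v x⟫ = ∫ x, v x ^ 2 * θ x := by
      intro v
      refine integral_congr_ae (ae_of_all _ fun x => ?_)
      simp only [smul_eq_mul, RCLike.inner_apply, conj_trivial]
      ring
    simpa only [e1] using h3
  -- right side
  set V : E N → E N := fun x => a (‖x - x₀‖ ^ 2) • (x - x₀) with hV
  have hVc : Continuous V := (ha.continuous.comp hcn).smul (continuous_id.sub continuous_const)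
  have hVb : ∀ x, ‖V x‖ ≤ C := by
    intro x
    have h4 := h1 (‖x - x₀‖ ^ 2) (by positivity)
    rw [Real.sqrt_sq (norm_nonneg _)] at h4
    rw [hV]
    simp only
    rw [norm_smul, Real.norm_eq_abs]
    nlinarith [abs_nonneg (a (‖x - x₀‖ ^ 2)), norm_nonneg (x - x₀)]
  have m : ∀ {v : E N → ℝ}, MemLp v 2 volume → MemLp (fun x => v x • V x) 2 volume := by
    intro v hv
    refine MemLp.of_le_mul (c := C) hv (hv.1.smul hVc.aestronglyMeasurable)
      (ae_of_all _ fun x => ?_)
    rw [norm_smul, mul_comm]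
    exact mul_le_mul_of_nonneg_right (hVb x) (norm_nonneg _)
  have cV : Tendsto (fun n => ∫ x, ‖u x • V x - φ n x • V x‖ ^ 2) atTop (𝓝 0) := by
    have h2 : ∀ n, ∫ x, ‖u x • V x - φ n x • V x‖ ^ 2 ≤ C ^ 2 * ∫ x, ‖u x - φ n x‖ ^ 2 := by
      intro n
      rw [← integral_const_mul]
      apply integral_mono (sq_norm_integrable ((m h.1).sub (m (t n).mem)))
        ((sq_norm_integrable (h.1.sub (t n).mem)).const_mul _)
      intro x
      simp only [Pi.sub_apply]
      rw [← sub_smul, norm_smul, mul_pow, mul_comm]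
      exact mul_le_mul_of_nonneg_right (pow_le_pow_left₀ (norm_nonneg _) (hVb x) 2)
        (by positivity)
    refine squeeze_zero (fun n => integral_nonneg fun x => by positivity) h2 ?_
    simpa using c.const_mul (C ^ 2)
  have R : Tendsto (fun n => ∫ x, φ n x * (a (‖x - x₀‖ ^ 2) * ⟪x - x₀, gradient (φ n) x⟫)) atTop
      (𝓝 (∫ x, u x * (a (‖x - x₀‖ ^ 2) * ⟪x - x₀, U x⟫))) := by
    have h3 := tendsto_int_inner (m h.1) h.2.1 (fun n => m (t n).mem)
      (fun n => (t n).memG) cV d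
    have e1 : ∀ (v : E N → ℝ) (W : E N → E N), ∫ x, ⟪v x • V x, W x⟫ =
        ∫ x, v x * (a (‖x - x₀‖ ^ 2) * ⟪x - x₀, W x⟫) := by
      intro v W
      refine integral_congr_ae (ae_of_all _ fun x => ?_)
      simp only [hV, real_inner_smul_left]
    simpa only [e1] using h3
  have h5 : ∀ n, ∫ x, φ n x ^ 2 * θ x =
      -(2 * ∫ x, φ n x * (a (‖x - x₀‖ ^ 2) * ⟪x - x₀, gradient (φ n) x⟫)) :=
    fun n => Tst.radial (t n).1 (t n).2.1 x₀ ha
  have h6 := tendsto_nhds_unique L (((R.const_mul 2).neg).congr fun n => (h5 n).symm)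
  rw [← h6]
  refine integral_congr_ae (ae_of_all _ fun x => ?_)
  simp only [hθd]
  rw [hda _ (by positivity)]

/-- Poincaré inequality -/
theorem H10.poincare (hΩ : Bornology.IsBounded Ω) (hN : 1 ≤ N) : ∃ C : ℝ, 0 < C ∧
    ∀ (u : E N → ℝ) (U : E N → E N), H10 Ω u U → ∫ x, u x ^ 2 ≤ C * ∫ x, ‖U x‖ ^ 2 := by
  obtain ⟨R, hR⟩ := hΩ.subset_closedBall (0 : E N)
  have hN' : (1 : ℝ) ≤ N := by exact_mod_cast hN
  refine ⟨4 * R ^ 2 + 1, by positivity, fun u U h => ?_⟩
  obtain ⟨φ, t, c, d⟩ := h.seq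
  have key : ∀ n, ∫ x, φ n x ^ 2 ≤ (4 * R ^ 2 + 1) * ∫ x, ‖gradient (φ n) x‖ ^ 2 := by
    intro n
    have h1 := Tst.radial (t n).1 (t n).2.1 0 (a := fun _ => (1 : ℝ)) contDiff_const
    simp only [sub_zero, mul_one, deriv_const, mul_zero, add_zero, one_mul] at h1
    rw [integral_mul_const] at h1
    have h2 : (2 : ℝ) * ∫ x, φ n x * ⟪x, gradient (φ n) x⟫ = ∫ x, 2 * (φ n x *
      ⟪x, gradient (φ n) x⟫) := (integral_const_mul _ _).symm
    rw [h2, ← integral_neg] at h1
    have i1 := sq_norm_integrable (t n).mem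
    have i2 := sq_norm_integrable (t n).memG
    have h3 : ∫ x, -(2 * (φ n x * ⟪x, gradient (φ n) x⟫)) ≤
        ∫ x, (1 / 2 * ‖φ n x‖ ^ 2 + 2 * R ^ 2 * ‖gradient (φ n) x‖ ^ 2) := by
      apply integral_mono
      · have : Integrable (fun x => (2 * φ n x) * ⟪x, gradient (φ n) x⟫) volume := by
          refine Continuous.integrable_of_hasCompactSupport ?_ ?_
          · exact (continuous_const.mul (t n).1.continuous).mul
              (continuous_id.inner (Tst.grad_cont (t n).1))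
          · exact ((t n).2.1.mul_left).mul_right
        exact this.neg.congr (ae_of_all _ fun x => by simp [mul_assoc])
      · exact (i1.const_mul _).add (i2.const_mul _)
      · intro x
        simp only
        by_cases hx : x ∈ tsupport (φ n)
        · have h4 : ‖x‖ ≤ R := by simpa using hR ((t n).2.2 hx)
          have h5 : |(⟪x, gradient (φ n) x⟫ : ℝ)| ≤ R * ‖gradient (φ n) x‖ :=
            (abs_real_inner_le_norm _ _).trans
              (mul_le_mul_of_nonneg_right h4 (norm_nonneg _))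
          have h6 : -(2 * (φ n x * ⟪x, gradient (φ n) x⟫)) ≤
              2 * (|φ n x| * (R * ‖gradient (φ n) x‖)) := by
            have := neg_abs_le (φ n x * ⟪x, gradient (φ n) x⟫)
            rw [abs_mul] at this
            nlinarith [mul_le_mul_of_nonneg_left h5 (abs_nonneg (φ n x))]
          rw [Real.norm_eq_abs]
          nlinarith [sq_nonneg (|φ n x| - 2 * (R * ‖gradient (φ n) x‖))]
        · have h4 : φ n x = 0 := image_eq_zero_of_notMem_tsupport hx
          rw [h4]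
          simp only [zero_mul, mul_zero, neg_zero]
          positivity
    rw [integral_add (i1.const_mul _) (i2.const_mul _), integral_const_mul,
      integral_const_mul] at h3
    have h4 : ∫ x, ‖φ n x‖ ^ 2 = ∫ x, φ n x ^ 2 := by simp [Real.norm_eq_abs, sq_abs]
    rw [h4] at h3
    have h5 : 0 ≤ ∫ x, φ n x ^ 2 := integral_nonneg fun x => sq_nonneg _
    have h6 : 0 ≤ ∫ x, ‖gradient (φ n) x‖ ^ 2 := integral_nonneg fun x => by positivity
    rw [← h1] at h3
    nlinarith
  have L := tendsto_int_inner h.1 h.1 (fun n => (t n).mem) (fun n => (t n).mem) c c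
  have R := (tendsto_int_inner h.2.1 h.2.1 (fun n => (t n).memG) (fun n => (t n).memG) d
    d).const_mul (4 * R ^ 2 + 1)
  have e1 : ∀ v : E N → ℝ, ∫ x, (⟪v x, v x⟫ : ℝ) = ∫ x, v x ^ 2 := by
    intro v
    refine integral_congr_ae (ae_of_all _ fun x => ?_)
    simp only [RCLike.inner_apply, conj_trivial]
    ring
  simp only [e1] at L
  simp only [real_inner_self_eq_norm_sq] at R
  exact le_of_tendsto_of_tendsto' L R key

/-- affine change of variables -/
theorem H10.scale {u : E N → ℝ} {U : E N → E N} (h : H10 Ω u U) (x₀ : E N) {r : ℝ} (hr : 0 < r)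
    (c : ℝ) :
    H10 {y | x₀ + r • y ∈ Ω} (fun y => c * u (x₀ + r • y))
      (fun y => (c * r) • U (x₀ + r • y)) := by
  have hI : ∀ F : E N → ℝ, ∫ y, F (x₀ + r • y) = (r ^ N)⁻¹ * ∫ x, F x := by
    intro F
    have h1 := Measure.integral_comp_smul_of_nonneg (μ := (volume : Measure (E N)))
      (fun y => F (x₀ + y)) r (hR := hr.le)
    simp only [finrank_euclideanSpace, Fintype.card_fin, smul_eq_mul] at h1
    rw [h1, integral_add_left_eq_self (μ := (volume : Measure (E N))) F x₀]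
  set T : E N ≃ₜ E N := (Homeomorph.smulOfNeZero r hr.ne').trans (Homeomorph.addLeft x₀) with hT
  have hTx : ∀ y, T y = x₀ + r • y := fun y => rfl
  have hq : Measure.QuasiMeasurePreserving (fun y : E N => x₀ + r • y) volume volume := by
    have h1 : Measure.QuasiMeasurePreserving (fun y : E N => r • y) volume volume := by
      refine ⟨(measurable_const_smul r), ?_⟩
      rw [Measure.map_addHaar_smul _ hr.ne']
      exact Measure.smul_absolutelyContinuous
    exact (measurePreserving_add_left volume x₀).quasiMeasurePreserving.comp h1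
  have mem : ∀ {F : Type} [NormedAddCommGroup F] {v : E N → F}, MemLp v 2 volume →
      MemLp (fun y => v (x₀ + r • y)) 2 volume := by
    intro F _ v hv
    have h1 : AEStronglyMeasurable (fun y => v (x₀ + r • y)) volume :=
      hv.1.comp_quasiMeasurePreserving hq
    rw [← memLp_norm_iff h1, memLp_two_iff_integrable_sq h1.norm]
    have h2 := sq_norm_integrable hv
    have h3 := (h2.comp_add_left x₀).comp_smul hr.ne'
    exact h3
  have hTst : ∀ φ : E N → ℝ, Tst Ω φ → Tst {y | x₀ + r • y ∈ Ω} (fun y => c * φ (x₀ + r • y)) := by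
    intro φ hφ
    have h1 : ContDiff ℝ 1 (fun y : E N => φ (x₀ + r • y)) :=
      hφ.1.comp (contDiff_const.add (contDiff_id.const_smul r))
    have h2 : HasCompactSupport (fun y : E N => φ (x₀ + r • y)) :=
      hφ.2.1.comp_homeomorph T
    refine ⟨contDiff_const.mul h1, h2.mul_left, ?_⟩
    refine (tsupport_mul_subset_right).trans ?_
    have h3 : tsupport (fun y : E N => φ (x₀ + r • y)) = T ⁻¹' tsupport φ :=
      tsupport_comp_eq_preimage φ T
    rw [h3]
    intro y hy
    exact hφ.2.2 hy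
  have hgr : ∀ φ : E N → ℝ, ContDiff ℝ 1 φ → ∀ y, gradient (fun y => c * φ (x₀ + r • y)) y =
      (c * r) • gradient φ (x₀ + r • y) := by
    intro φ hφ y
    have h1 : HasFDerivAt (fun y : E N => x₀ + r • y) (r • ContinuousLinearMap.id ℝ (E N)) y :=
      ((hasFDerivAt_id y).const_smul r).const_add x₀
    have h2 : HasFDerivAt (fun y : E N => c * φ (x₀ + r • y))
        (c • (fderiv ℝ φ (x₀ + r • y)).comp (r • ContinuousLinearMap.id ℝ (E N))) y :=
      ((((hφ.differentiable (by norm_num)) (x₀ + r • y)).hasFDerivAt).comp y h1).const_mul c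
    have h3 : c • (fderiv ℝ φ (x₀ + r • y)).comp (r • ContinuousLinearMap.id ℝ (E N)) =
        (c * r) • fderiv ℝ φ (x₀ + r • y) := by
      ext v
      simp [mul_assoc]
    rw [gradient, h2.fderiv, h3, map_smul, gradient]
  apply H10.ofTst ((mem h.1).const_mul c) ((mem h.2.1).const_smul (c * r))
  intro δ hδ
  obtain ⟨φ, h3, h4, h5⟩ := h.toTst
    (δ := δ * r ^ N / (1 + c ^ 2 + (c * r) ^ 2)) (by positivity)
  have hc : ∀ s : ℝ, s ≤ c ^ 2 + (c * r) ^ 2 → s * ((r ^ N)⁻¹ *
      (δ * r ^ N / (1 + c ^ 2 + (c * r) ^ 2))) ≤ δ := by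
    intro s hs
    have e1 : s * ((r ^ N)⁻¹ * (δ * r ^ N / (1 + c ^ 2 + (c * r) ^ 2))) =
        s * δ / (1 + c ^ 2 + (c * r) ^ 2) := by
      field_simp
    rw [e1, div_le_iff₀ (by positivity)]
    nlinarith
  refine ⟨fun y => c * φ (x₀ + r • y), hTst φ h3, ?_, ?_⟩
  · have e1 : ∀ y, ‖c * u (x₀ + r • y) - c * φ (x₀ + r • y)‖ ^ 2 =
        c ^ 2 * (fun x => ‖u x - φ x‖ ^ 2) (x₀ + r • y) := by
      intro y
      simp only
      rw [← mul_sub, norm_mul, mul_pow, Real.norm_eq_abs c, sq_abs]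
    simp only [e1]
    rw [integral_const_mul, hI (fun x => ‖u x - φ x‖ ^ 2)]
    refine le_trans ?_ (hc (c ^ 2) (by nlinarith [sq_nonneg (c * r)]))
    exact mul_le_mul_of_nonneg_left (mul_le_mul_of_nonneg_left h4 (by positivity))
      (sq_nonneg c)
  · have e1 : ∀ y, ‖((c * r) • fun y => U (x₀ + r • y)) y -
        gradient (fun y => c * φ (x₀ + r • y)) y‖ ^ 2 =
        (c * r) ^ 2 * (fun x => ‖U x - gradient φ x‖ ^ 2) (x₀ + r • y) := by
      intro y
      simp only [Pi.smul_apply]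
      rw [hgr φ h3.1, ← smul_sub, norm_smul, mul_pow, Real.norm_eq_abs, sq_abs]
    simp only [e1]
    rw [integral_const_mul, hI (fun x => ‖U x - gradient φ x‖ ^ 2)]
    refine le_trans ?_ (hc ((c * r) ^ 2) (by nlinarith [sq_nonneg c]))
    exact mul_le_mul_of_nonneg_left (mul_le_mul_of_nonneg_left h5 (by positivity))
      (sq_nonneg _)

end Pool.Agent.H25.HX
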